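import Mathlib

/-!
# Definitions used in the final statement
-/

namespace Pool.Agent.Ros

open Finset Filter Topology

section
variable {X : Type*} [NormedAddCommGroup X] [NormedSpace ℝ X]
variable {Y : Type*} [NormedAddCommGroup Y] [NormedSpace ℝ Y]

/-- `x` is a Schauder basis of its closed linear span. -/
def IsBasicSeq (x : ℕ → X) : Prop :=
  ∀ y ∈ closure (Submodule.span ℝ (Set.range x) : Set X),
    ∃! a : ℕ → ℝ, Tendsto (fun n => ∑ i ∈ range n, a i • x i) atTop (𝓝 y)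

/-- `v` is a normalized block sequence of `x`. -/
def IsNormalizedBlock (x v : ℕ → X) : Prop :=
  ∃ (p : ℕ → ℕ) (a : ℕ → ℝ), StrictMono p ∧
    ∀ k, v k = ∑ i ∈ Ico (p k) (p (k + 1)), a i • x i ∧ ‖v k‖ = 1

/-- `x` and `y` are equivalent. -/
def Equivalent (x : ℕ → X) (y : ℕ → Y) : Prop :=
  ∃ A B : ℝ, 0 < A ∧ 0 < B ∧ ∀ a : ℕ →₀ ℝ,
    A⁻¹ * ‖∑ i ∈ a.support, a i • y i‖ ≤ ‖∑ i ∈ a.support, a i • x i‖ ∧
    ‖∑ i ∈ a.support, a i • x i‖ ≤ B * ‖∑ i ∈ a.support, a i • y i‖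

/-- `x` is a Rosenthal basis. -/
def IsRosenthalBasis (x : ℕ → X) : Prop :=
  IsBasicSeq x ∧ (∀ n, ‖x n‖ = 1) ∧
    ∀ v : ℕ → X, IsNormalizedBlock x v → ∃ φ : ℕ → ℕ, StrictMono φ ∧ Equivalent (v ∘ φ) x

end

end Pool.Agent.Ros
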