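import Pool.Agent.Helper80.Ros.Basic
import Pool.Agent.Helper80.Ros.Final0

/-!
# Banach space part: a Banach space realising the norm, and the criterion for basic sequences
-/

namespace Pool.Agent.Ros
open Finset Filter Topology
variable {n : ℕ → ℕ}

/-- the norm is 1-unconditional: monotone in the absolute values -/
theorem N_mono (hn : Params n) {x y : ℕ →₀ ℝ} (h : ∀ i, |x i| ≤ |y i|) : N n x ≤ N n y :=
  N_le fun _ _ hf => (E_mono hf.nonneg fun i _ => h i).trans (le_N hn hf y)

/-- signed functionals of the norming set -/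
def BanI (n : ℕ → ℕ) : Type := {g : ℕ →₀ ℝ // ∃ f A, F n f A ∧ ∀ i, |g i| ≤ f i}

lemma ban_mem (hn : Params n) (i : ℕ) : Memℓp (fun g : BanI n => g.1 i) ⊤ := by
  rw [memℓp_infty_iff]
  refine ⟨1, ?_⟩
  rintro _ ⟨g, rfl⟩
  obtain ⟨f, A, hf, h⟩ := g.2
  simp only [Real.norm_eq_abs]
  exact (h i).trans (hf.le_one hn i)

/-- the unit vectors -/
def banX (hn : Params n) (i : ℕ) : lp (fun _ : BanI n => ℝ) ⊤ :=
  ⟨fun g => g.1 i, ban_mem hn i⟩

lemma banX_apply (hn : Params n) (a : ℕ →₀ ℝ) (g : BanI n) :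
    (∑ i ∈ a.support, a i • banX hn i : lp (fun _ : BanI n => ℝ) ⊤) g =
      ∑ i ∈ a.support, a i * g.1 i := by
  rw [lp.coeFn_sum, Finset.sum_apply]
  rfl

/-- A Banach space and a sequence realising the norm `N n`. -/
theorem exists_space (hn : Params n) :
    ∃ (X : Type) (_ : NormedAddCommGroup X) (_ : NormedSpace ℝ X) (_ : CompleteSpace X)
      (x : ℕ → X), ∀ a : ℕ →₀ ℝ, ‖∑ i ∈ a.support, a i • x i‖ = N n a := by
  refine ⟨lp (fun _ : BanI n => ℝ) ⊤, inferInstance, inferInstance, inferInstance, banX hn, ?_⟩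
  intro a
  apply le_antisymm
  · apply lp.norm_le_of_forall_le (N_nonneg hn a)
    intro g
    rw [banX_apply, Real.norm_eq_abs]
    obtain ⟨f, A, hf, h⟩ := g.2
    refine (Finset.abs_sum_le_sum_abs _ _).trans ?_
    refine le_trans ?_ (le_N hn hf a)
    rw [E_eq_sum_of_subset _ f (Finset.subset_union_left (s₂ := a.support))]
    refine (Finset.sum_le_sum (fun i _ => ?_) : _ ≤ ∑ i ∈ a.support, f i * |a i|).trans ?_
    · rw [abs_mul, mul_comm]
      exact mul_le_mul_of_nonneg_right (h i) (abs_nonneg _)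
    · exact Finset.sum_le_sum_of_subset_of_nonneg Finset.subset_union_right
        (fun i _ _ => mul_nonneg (hf.nonneg i) (abs_nonneg _))
  · apply N_le
    intro f A hf
    let g : ℕ →₀ ℝ := Finsupp.onFinset f.support (fun i => if 0 ≤ a i then f i else - f i) (by
      intro i hi
      rw [Finsupp.mem_support_iff]
      intro h0
      apply hi
      simp only [h0, neg_zero, ite_self])
    have hg : ∀ i, g i = if 0 ≤ a i then f i else - f i := fun i => rfl
    have hgI : ∃ f A, F n f A ∧ ∀ i, |g i| ≤ f i := by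
      refine ⟨f, A, hf, fun i => ?_⟩
      rw [hg]
      split_ifs
      · rw [abs_of_nonneg (hf.nonneg i)]
      · rw [abs_neg, abs_of_nonneg (hf.nonneg i)]
    have h1 := lp.norm_apply_le_norm (p := ⊤) (by simp)
      (∑ i ∈ a.support, a i • banX hn i : lp (fun _ : BanI n => ℝ) ⊤) (⟨g, hgI⟩ : BanI n)
    rw [banX_apply] at h1
    refine le_trans (le_of_eq ?_) ((le_abs_self _).trans h1)
    rw [E_eq_sum_of_subset _ f (Finset.subset_union_left (s₂ := a.support))]
    rw [Finset.sum_subset (Finset.subset_union_right (s₁ := f.support) (s₂ := a.support))]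
    · apply Finset.sum_congr rfl
      intro i _
      show f i * |a i| = a i * g i
      rw [hg]
      split_ifs with h
      · rw [abs_of_nonneg h]; ring
      · rw [abs_of_neg (lt_of_not_ge h)]; ring
    · intro i _ hi
      rw [Finsupp.notMem_support_iff.mp hi, zero_mul]

/-- The criterion for basic sequences. -/
theorem isBasicSeq_of {X : Type*} [NormedAddCommGroup X] [NormedSpace ℝ X] [CompleteSpace X]
    (x : ℕ → X) (hcoord : ∀ (a : ℕ → ℝ) (m k : ℕ), k < m → |a k| ≤ ‖∑ i ∈ range m, a i • x i‖)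
    (hproj : ∀ (a : ℕ → ℝ) (m m' : ℕ), m ≤ m' →
      ‖∑ i ∈ range m, a i • x i‖ ≤ ‖∑ i ∈ range m', a i • x i‖) : IsBasicSeq x := by
  intro y hy
  have hsub : ∀ (a b : ℕ → ℝ) (m : ℕ), ∑ i ∈ range m, (a i - b i) • x i =
      ∑ i ∈ range m, a i • x i - ∑ i ∈ range m, b i • x i := by
    intro a b m
    rw [← Finset.sum_sub_distrib]
    exact Finset.sum_congr rfl fun i _ => sub_smul _ _ _
  -- uniqueness
  have huniq : ∀ a b : ℕ → ℝ, Tendsto (fun n => ∑ i ∈ range n, a i • x i) atTop (𝓝 y) →
      Tendsto (fun n => ∑ i ∈ range n, b i • x i) atTop (𝓝 y) → a = b := by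
    intro a b ha hb
    have h1 : Tendsto (fun n => ‖∑ i ∈ range n, (a i - b i) • x i‖) atTop (𝓝 0) := by
      have h2 := (ha.sub hb).norm
      rw [sub_self, norm_zero] at h2
      refine h2.congr fun m => ?_
      rw [hsub]
    funext k
    have h3 : |a k - b k| ≤ 0 := by
      refine ge_of_tendsto h1 ?_
      filter_upwards [eventually_gt_atTop k] with m hm
      exact hcoord (fun i => a i - b i) m k hm
    have h4 := abs_nonpos_iff.mp h3
    linarith
  -- approximation by finite sums
  have happ : ∀ m : ℕ, ∃ (c : ℕ → ℝ) (M : ℕ), ∀ L, M ≤ L →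
      ‖∑ i ∈ range L, c i • x i - y‖ ≤ 1 / ((m : ℝ) + 1) := by
    intro m
    have hpos : (0 : ℝ) < 1 / ((m : ℝ) + 1) := by positivity
    obtain ⟨z, hz, hd⟩ := Metric.mem_closure_iff.mp hy _ hpos
    obtain ⟨c, hc⟩ := (Finsupp.mem_span_range_iff_exists_finsupp).mp hz
    refine ⟨c, c.support.sup id + 1, fun L hL => ?_⟩
    have h1 : ∑ i ∈ range L, c i • x i = z := by
      rw [← hc, Finsupp.sum]
      symm
      apply Finset.sum_subset
      · intro i hi
        have := Finset.le_sup (f := id) hi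
        rw [mem_range]
        simp only [id] at this
        omega
      · intro i _ hi
        rw [Finsupp.notMem_support_iff.mp hi, zero_smul]
    rw [h1, ← dist_eq_norm, dist_comm]
    exact hd.le
  choose c M hc using happ
  -- differences
  have hdiff : ∀ m m' L, ‖∑ i ∈ range L, (c m i - c m' i) • x i‖ ≤
      1 / ((m : ℝ) + 1) + 1 / ((m' : ℝ) + 1) := by
    intro m m' L
    have h1 := hproj (fun i => c m i - c m' i) L (max L (max (M m) (M m'))) (le_max_left _ _)
    refine h1.trans ?_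
    rw [hsub]
    have h2 := hc m (max L (max (M m) (M m'))) ((le_max_left _ _).trans (le_max_right _ _))
    have h3 := hc m' (max L (max (M m) (M m'))) ((le_max_right _ _).trans (le_max_right _ _))
    calc ‖∑ i ∈ range (max L (max (M m) (M m'))), c m i • x i -
          ∑ i ∈ range (max L (max (M m) (M m'))), c m' i • x i‖
        = ‖(∑ i ∈ range (max L (max (M m) (M m'))), c m i • x i - y) -
          (∑ i ∈ range (max L (max (M m) (M m'))), c m' i • x i - y)‖ := by
          congr 1; abel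
      _ ≤ _ := norm_sub_le _ _
      _ ≤ _ := add_le_add h2 h3
  have hcau : ∀ k, CauchySeq (fun m => c m k) := by
    intro k
    rw [Metric.cauchySeq_iff']
    intro ε hε
    obtain ⟨m0, hm0⟩ := exists_nat_one_div_lt (show (0 : ℝ) < ε / 2 by positivity)
    refine ⟨m0, fun m hm => ?_⟩
    rw [Real.dist_eq]
    have h1 := hcoord (fun i => c m i - c m0 i) (k + 1) k (by omega)
    have h2 := hdiff m m0 (k + 1)
    have h3 : 1 / ((m : ℝ) + 1) ≤ 1 / ((m0 : ℝ) + 1) :=
      one_div_le_one_div_of_le (by positivity) (by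
        have : (m0 : ℝ) ≤ m := by exact_mod_cast hm
        linarith)
    linarith
  have hlim : ∀ k, ∃ a, Tendsto (fun m => c m k) atTop (𝓝 a) := fun k =>
    cauchySeq_tendsto_of_complete (hcau k)
  choose a ha using hlim
  have h0 : Tendsto (fun m : ℕ => 1 / ((m : ℝ) + 1)) atTop (𝓝 0) :=
    tendsto_one_div_add_atTop_nhds_zero_nat
  have hlimit : ∀ m L, ‖∑ i ∈ range L, (c m i - a i) • x i‖ ≤ 1 / ((m : ℝ) + 1) := by
    intro m L
    have h1 : Tendsto (fun m' => ‖∑ i ∈ range L, (c m i - c m' i) • x i‖) atTop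
        (𝓝 ‖∑ i ∈ range L, (c m i - a i) • x i‖) := by
      apply Tendsto.norm
      apply tendsto_finsetSum
      intro i _
      exact ((tendsto_const_nhds.sub (ha i))).smul_const _
    have h2 : Tendsto (fun m' : ℕ => 1 / ((m : ℝ) + 1) + 1 / ((m' : ℝ) + 1)) atTop
        (𝓝 (1 / ((m : ℝ) + 1) + 0)) := tendsto_const_nhds.add h0
    rw [add_zero] at h2
    exact le_of_tendsto_of_tendsto' h1 h2 fun m' => hdiff m m' L
  have hA : Tendsto (fun n => ∑ i ∈ range n, a i • x i) atTop (𝓝 y) := by
    rw [Metric.tendsto_atTop]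
    intro ε hε
    obtain ⟨m, hm⟩ := exists_nat_one_div_lt (show (0 : ℝ) < ε / 2 by positivity)
    refine ⟨M m, fun L hL => ?_⟩
    rw [dist_eq_norm]
    have h1 := hlimit m L
    have h2 := hc m L hL
    rw [hsub] at h1
    calc ‖∑ i ∈ range L, a i • x i - y‖ = ‖(∑ i ∈ range L, c m i • x i - y) -
          (∑ i ∈ range L, c m i • x i - ∑ i ∈ range L, a i • x i)‖ := by congr 1; abel
      _ ≤ _ := norm_sub_le _ _
      _ < ε := by linarith
  exact ⟨a, hA, fun b hb => huniq b a hb hA⟩

end Pool.Agent.Ros
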