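import Pool.Agent.Helper80.Ros.Defs

/-!
# Basic properties of the norming set
-/

namespace Pool.Agent.Ros

open Finset

/-! ### The weights -/

lemma gam_nonneg (j r : ℕ) : 0 ≤ gam j r := by
  unfold gam; positivity

lemma gam_le (j r : ℕ) : gam j r ≤ j := by
  unfold gam
  rcases Nat.eq_zero_or_pos j with h | h
  · subst h; simp
  · have hj : (0 : ℝ) < j := by exact_mod_cast h
    have hr : (0 : ℝ) ≤ r := Nat.cast_nonneg r
    rw [div_le_iff₀ (by positivity)]
    nlinarith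

lemma gam_zero (j : ℕ) : gam j 0 = j := by
  unfold gam
  rcases Nat.eq_zero_or_pos j with h | h
  · subst h; simp
  · have hj : (0 : ℝ) < j := by exact_mod_cast h
    simp; field_simp

lemma gam_mul_le (j r : ℕ) : gam j r * r ≤ (j : ℝ) ^ 2 := by
  unfold gam
  rcases Nat.eq_zero_or_pos j with h | h
  · subst h; simp
  · have hj : (0 : ℝ) < j := by exact_mod_cast h
    have hr : (0 : ℝ) ≤ r := Nat.cast_nonneg r
    rw [div_mul_eq_mul_div, div_le_iff₀ (by positivity)]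
    nlinarith [sq_nonneg (j : ℝ), mul_pos hj hj, mul_pos (mul_pos hj hj) hj]

lemma gam_ratio_pred (j r : ℕ) (hj : 2 ≤ j) :
    gam j r ≤ ((j : ℝ) / ((j : ℝ) - 1)) ^ 2 * gam (j - 1) r := by
  obtain ⟨i, rfl⟩ : ∃ i, j = i + 2 := ⟨j - 2, by omega⟩
  have h1 : i + 2 - 1 = i + 1 := by omega
  rw [h1]
  unfold gam
  push_cast
  have hi : (0 : ℝ) ≤ i := Nat.cast_nonneg i
  have hr : (0 : ℝ) ≤ r := Nat.cast_nonneg r
  have h2 : (i : ℝ) + 2 - 1 = i + 1 := by ring
  rw [h2, div_pow, div_mul_div_comm, mul_comm (((i : ℝ) + 1) ^ 2), mul_div_mul_right _ _ (by positivity)]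
  apply div_le_div_of_nonneg_left (by positivity) (by positivity) (by linarith)

lemma gam_ratio_succ (j r : ℕ) (hj : 1 ≤ j) :
    gam j r ≤ (1 + 1 / (j : ℝ)) * gam j (r + 1) := by
  unfold gam
  have hj : (0 : ℝ) < j := by exact_mod_cast hj
  have hr : (0 : ℝ) ≤ r := Nat.cast_nonneg r
  push_cast
  rw [← mul_div_assoc, div_le_div_iff₀ (by positivity) (by positivity)]
  have : (1 + 1 / (j : ℝ)) * (j : ℝ) ^ 2 = (j : ℝ) ^ 2 + j := by field_simp
  rw [this]
  nlinarith [mul_nonneg hj.le hr]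

/-! ### The parameters -/

section params
variable {n : ℕ → ℕ}

lemma Params.le (hn : Params n) {j : ℕ} (hj : 1 ≤ j) : j ≤ n j := by
  have := hn.lin j hj; omega

lemma Params.pos (hn : Params n) {j : ℕ} (hj : 1 ≤ j) : 0 < n j := by
  have := hn.lin j hj; omega

lemma coef_nonneg (j r : ℕ) : 0 ≤ gam j r / n j :=
  div_nonneg (gam_nonneg _ _) (Nat.cast_nonneg _)

lemma coef_le (j r : ℕ) : gam j r / n j ≤ (j : ℝ) / n j :=
  div_le_div_of_nonneg_right (gam_le _ _) (Nat.cast_nonneg _)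

lemma coef_le_one (hn : Params n) {j : ℕ} (hj : 1 ≤ j) (r : ℕ) : gam j r / n j ≤ 1 := by
  refine (coef_le j r).trans ?_
  have h1 : (j : ℝ) ≤ n j := by exact_mod_cast hn.le hj
  exact div_le_one_of_le₀ h1 (Nat.cast_nonneg _)

end params

/-! ### Evaluation -/

lemma E_apply (w : ℕ → ℝ) (f : ℕ →₀ ℝ) : E w f = f.sum fun i a => a * w i := by
  simp [E, Finsupp.linearCombination_apply]

lemma E_apply' (w : ℕ → ℝ) (f : ℕ →₀ ℝ) : E w f = ∑ i ∈ f.support, f i * w i := by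
  rw [E_apply]; rfl

lemma E_eq_sum_of_subset (w : ℕ → ℝ) (f : ℕ →₀ ℝ) {S : Finset ℕ} (hS : f.support ⊆ S) :
    E w f = ∑ i ∈ S, f i * w i := by
  rw [E_apply']
  apply Finset.sum_subset hS
  intro i _ hi
  simp [Finsupp.notMem_support_iff.mp hi]

@[simp] lemma E_single (w : ℕ → ℝ) (i : ℕ) (t : ℝ) : E w (Finsupp.single i t) = t * w i := by
  simp [E]

lemma E_nonneg {w : ℕ → ℝ} {f : ℕ →₀ ℝ} (hw : ∀ i, 0 ≤ w i) (hf : ∀ i, 0 ≤ f i) : 0 ≤ E w f := by
  rw [E_apply']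
  exact Finset.sum_nonneg fun i _ => mul_nonneg (hf i) (hw i)

lemma E_mono {w w' : ℕ → ℝ} {f : ℕ →₀ ℝ} (hf : ∀ i, 0 ≤ f i) (h : ∀ i ∈ f.support, w i ≤ w' i) :
    E w f ≤ E w' f := by
  rw [E_apply', E_apply']
  exact Finset.sum_le_sum fun i hi => mul_le_mul_of_nonneg_left (h i hi) (hf i)

lemma E_mono_left {w : ℕ → ℝ} {f g : ℕ →₀ ℝ} (hw : ∀ i, 0 ≤ w i) (h : ∀ i, f i ≤ g i) :
    E w f ≤ E w g := by
  rw [E_eq_sum_of_subset w f (Finset.subset_union_left (s₂ := g.support)),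
    E_eq_sum_of_subset w g (Finset.subset_union_right (s₁ := f.support))]
  exact Finset.sum_le_sum fun i _ => mul_le_mul_of_nonneg_right (h i) (hw i)

lemma E_congr {w w' : ℕ → ℝ} {f : ℕ →₀ ℝ} (h : ∀ i ∈ f.support, w i = w' i) :
    E w f = E w' f := by
  rw [E_apply', E_apply']
  exact Finset.sum_congr rfl fun i hi => by rw [h i hi]

lemma E_add_w (w w' : ℕ → ℝ) (f : ℕ →₀ ℝ) : E (fun i => w i + w' i) f = E w f + E w' f := by
  simp only [E_apply', mul_add, Finset.sum_add_distrib]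

lemma E_smul_w (t : ℝ) (w : ℕ → ℝ) (f : ℕ →₀ ℝ) : E (fun i => t * w i) f = t * E w f := by
  simp only [E_apply', Finset.mul_sum]
  exact Finset.sum_congr rfl fun i _ => by ring

/-- linearity in the vector -/
lemma E_sum_w (K : Finset ℕ) (a : ℕ → ℝ) (w : ℕ → ℕ → ℝ) (f : ℕ →₀ ℝ) :
    E (fun i => ∑ k ∈ K, a k * w k i) f = ∑ k ∈ K, a k * E (w k) f := by
  simp only [E_apply', Finset.mul_sum]
  rw [Finset.sum_comm]
  exact Finset.sum_congr rfl fun i _ => Finset.sum_congr rfl fun k _ => by ring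

lemma E_eq_zero {w : ℕ → ℝ} {f : ℕ →₀ ℝ} (h : ∀ i ∈ f.support, w i = 0) : E w f = 0 := by
  rw [E_apply']
  exact Finset.sum_eq_zero fun i hi => by rw [h i hi, mul_zero]

lemma exists_of_E_ne_zero {w : ℕ → ℝ} {f : ℕ →₀ ℝ} (h : E w f ≠ 0) : ∃ i ∈ f.support, w i ≠ 0 := by
  by_contra hc
  push Not at hc
  exact h (E_eq_zero hc)

lemma E_node (n : ℕ → ℕ) (w : ℕ → ℝ) (j r : ℕ) (C : Finset ℕ) (f : ℕ → ℕ →₀ ℝ) :
    E w ((gam j r / n j) • ∑ c ∈ C, f c) = (gam j r / n j) * ∑ c ∈ C, E w (f c) := by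
  rw [map_smul, map_sum, smul_eq_mul]

/-! ### Sums of successive functionals -/

lemma support_sum_subset (C : Finset ℕ) (f : ℕ → ℕ →₀ ℝ) :
    (∑ c ∈ C, f c).support ⊆ C.biUnion fun c => (f c).support :=
  Finsupp.support_finsetSum

lemma support_node_subset (t : ℝ) (C : Finset ℕ) (f : ℕ → ℕ →₀ ℝ) :
    (t • ∑ c ∈ C, f c).support ⊆ C.biUnion fun c => (f c).support :=
  Finsupp.support_smul.trans (support_sum_subset C f)

lemma sum_apply_eq {C : Finset ℕ} {f : ℕ → ℕ →₀ ℝ}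
    (hs : ∀ c ∈ C, ∀ c' ∈ C, c < c' → ∀ i ∈ (f c).support, ∀ i' ∈ (f c').support, i < i')
    {c : ℕ} (hc : c ∈ C) {i : ℕ} (hi : i ∈ (f c).support) : (∑ c ∈ C, f c) i = f c i := by
  rw [Finsupp.finsetSum_apply]
  apply Finset.sum_eq_single_of_mem c hc
  intro c' hc' hne
  by_contra h0
  have hi' : i ∈ (f c').support := Finsupp.mem_support_iff.mpr h0
  rcases lt_or_gt_of_ne hne with h | h
  · exact lt_irrefl _ (hs c' hc' c hc h i hi' i hi)
  · exact lt_irrefl _ (hs c hc c' hc' h i hi i hi')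

lemma sum_apply_eq_zero {C : Finset ℕ} {f : ℕ → ℕ →₀ ℝ} {i : ℕ}
    (h : ∀ c ∈ C, i ∉ (f c).support) : (∑ c ∈ C, f c) i = 0 := by
  rw [Finsupp.finsetSum_apply]
  exact Finset.sum_eq_zero fun c hc => Finsupp.notMem_support_iff.mp (h c hc)

/-! ### Chains -/

lemma HasChain.mono {C C' : Finset ℕ} {A : ℕ → Finset ℕ} {m : ℕ} (h : C ⊆ C')
    (hm : HasChain C A m) : HasChain C' A m := by
  obtain ⟨c, x, h1, h2⟩ := hm
  exact ⟨c, x, fun i hi => ⟨h (h1 i hi).1, (h1 i hi).2⟩, h2⟩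

lemma HasChain.card_le {C : Finset ℕ} {A : ℕ → Finset ℕ} {m : ℕ} (hm : HasChain C A m) :
    m ≤ C.card := by
  obtain ⟨c, x, h1, h2⟩ := hm
  have hanti : ∀ d i, i + d < m → 0 < d → c (i + d) < c i := by
    intro d
    induction d with
    | zero => intro i _ h; exact absurd h (lt_irrefl _)
    | succ d ih =>
      intro i hi _
      rcases Nat.eq_zero_or_pos d with h0 | h0
      · subst h0; exact (h2 i hi).1
      · have := ih i (by omega) h0
        have h3 := (h2 (i + d) (by omega)).1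
        have h4 : i + (d + 1) = i + d + 1 := by omega
        rw [h4]; exact h3.trans this
  have hinj : Set.InjOn c (Finset.range m : Set ℕ) := by
    intro i hi i' hi' he
    simp only [Finset.coe_range, Set.mem_Iio] at hi hi'
    rcases lt_trichotomy i i' with h | h | h
    · exfalso
      have := hanti (i' - i) i (by omega) (by omega)
      rw [show i + (i' - i) = i' by omega, he] at this
      exact lt_irrefl _ this
    · exact h
    · exfalso
      have := hanti (i - i') i' (by omega) (by omega)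
      rw [show i' + (i - i') = i by omega, he] at this
      exact lt_irrefl _ this
  have := Finset.card_le_card_of_injOn (s := Finset.range m) (t := C) c
    (fun i hi => (h1 i (by simpa using hi)).1) hinj
  simpa using this

/-! ### The norming set -/

section F
variable {n : ℕ → ℕ}

lemma F.nonneg {f : ℕ →₀ ℝ} {A : Finset ℕ} (h : F n f A) : ∀ i, 0 ≤ f i := by
  induction h with
  | zero => intro i; simp
  | leaf k => intro i; rw [Finsupp.single_apply]; split_ifs <;> norm_num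
  | node j r C f A hj hC hF hs hA hr ih =>
    intro i
    rw [Finsupp.smul_apply, Finsupp.finsetSum_apply, smul_eq_mul]
    exact mul_nonneg (coef_nonneg _ _) (Finset.sum_nonneg fun c hc => ih c hc i)

lemma F.le_one (hn : Params n) {f : ℕ →₀ ℝ} {A : Finset ℕ} (h : F n f A) : ∀ i, f i ≤ 1 := by
  induction h with
  | zero => intro i; simp
  | leaf k => intro i; rw [Finsupp.single_apply]; split_ifs <;> norm_num
  | node j r C f A hj hC hF hs hA hr ih =>
    intro i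
    rw [Finsupp.smul_apply, smul_eq_mul]
    have h0 := coef_nonneg (n := n) j r
    have h1 := coef_le_one hn hj r
    by_cases hex : ∃ c ∈ C, i ∈ (f c).support
    · obtain ⟨c, hc, hi⟩ := hex
      rw [sum_apply_eq hs hc hi]
      have h2 := ih c hc i
      have h3 := (hF c hc).nonneg i
      nlinarith
    · push Not at hex
      rw [sum_apply_eq_zero hex]; simp

lemma F.one_le {f : ℕ →₀ ℝ} {A : Finset ℕ} (h : F n f A) : ∀ x ∈ A, 1 ≤ x := by
  induction h with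
  | zero => intro x hx; simp at hx
  | leaf k => intro x hx; simp at hx
  | node j r C f A hj hC hF hs hA hr ih =>
    intro x hx
    rw [Finset.mem_insert, Finset.mem_biUnion] at hx
    rcases hx with rfl | ⟨c, hc, hx⟩
    · exact hj
    · exact ih c hc x hx

lemma F.E_nonneg {f : ℕ →₀ ℝ} {A : Finset ℕ} (h : F n f A) {w : ℕ → ℝ} (hw : ∀ i, 0 ≤ w i) :
    0 ≤ E w f := Pool.Agent.Ros.E_nonneg hw h.nonneg

/-- a subfamily of the children of a node, with another index `j'`. -/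
lemma F.node_sub {j' r : ℕ} {C : Finset ℕ} {f : ℕ → ℕ →₀ ℝ} {A : ℕ → Finset ℕ}
    {j : ℕ} (hF : ∀ c ∈ C, F n (f c) (A c))
    (hs : ∀ c ∈ C, ∀ c' ∈ C, c < c' → ∀ i ∈ (f c).support, ∀ i' ∈ (f c').support, i < i')
    (hA : ∀ c ∈ C, ∀ x ∈ A c, 2 * j ≤ x)
    (hr : ∀ m, HasChain C A m → m ≤ r)
    {T : Finset ℕ} (hT : T ⊆ C) (hj' : 1 ≤ j') (hjj : j' ≤ j) (hcard : T.card ≤ n j') :
    F n ((gam j' r / n j') • ∑ c ∈ T, f c) (insert j' (T.biUnion A)) := by
  refine F.node j' r T f A hj' hcard (fun c hc => hF c (hT hc))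
    (fun c hc c' hc' => hs c (hT hc) c' (hT hc')) (fun c hc x hx => ?_)
    (fun m hm => hr m (hm.mono hT))
  have := hA c (hT hc) x hx
  omega

end F

/-! ### The norm -/

section N
variable {n : ℕ → ℕ}

lemma N_bddAbove (hn : Params n) (x : ℕ →₀ ℝ) :
    BddAbove {t : ℝ | ∃ f A, F n f A ∧ t = E (fun i => |x i|) f} := by
  refine ⟨∑ i ∈ x.support, |x i|, ?_⟩
  rintro t ⟨f, A, hf, rfl⟩
  rw [E_eq_sum_of_subset _ f (Finset.subset_union_left (s₂ := x.support))]
  have : ∑ i ∈ x.support, |x i| = ∑ i ∈ f.support ∪ x.support, |x i| := by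
    apply Finset.sum_subset Finset.subset_union_right
    intro i _ hi
    simp [Finsupp.notMem_support_iff.mp hi]
  rw [this]
  exact Finset.sum_le_sum fun i _ => mul_le_of_le_one_left (abs_nonneg _) (hf.le_one hn i)

lemma le_N (hn : Params n) {f : ℕ →₀ ℝ} {A : Finset ℕ} (hf : F n f A) (x : ℕ →₀ ℝ) :
    E (fun i => |x i|) f ≤ N n x :=
  le_csSup (N_bddAbove hn x) ⟨f, A, hf, rfl⟩

lemma N_nonneg (hn : Params n) (x : ℕ →₀ ℝ) : 0 ≤ N n x := by
  have := le_N hn (F.zero (n := n)) x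
  simpa using this

lemma N_le {x : ℕ →₀ ℝ} {c : ℝ} (h : ∀ f A, F n f A → E (fun i => |x i|) f ≤ c) : N n x ≤ c := by
  have hne : {t : ℝ | ∃ f A, F n f A ∧ t = E (fun i => |x i|) f}.Nonempty :=
    ⟨_, 0, ∅, F.zero, rfl⟩
  apply csSup_le hne
  rintro t ⟨f, A, hf, rfl⟩
  exact h f A hf

lemma abs_le_N (hn : Params n) (x : ℕ →₀ ℝ) (i : ℕ) : |x i| ≤ N n x := by
  have := le_N hn (F.leaf (n := n) i) x
  simpa using this

lemma exists_lt_of_lt_N {x : ℕ →₀ ℝ} {c : ℝ} (h : c < N n x) :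
    ∃ f A, F n f A ∧ c < E (fun i => |x i|) f := by
  have hne : {t : ℝ | ∃ f A, F n f A ∧ t = E (fun i => |x i|) f}.Nonempty :=
    ⟨_, 0, ∅, F.zero, rfl⟩
  obtain ⟨t, ⟨f, A, hf, rfl⟩, ht⟩ := exists_lt_of_lt_csSup hne h
  exact ⟨f, A, hf, ht⟩

end N

end Pool.Agent.Ros
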