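import Pool.Agent.Helper80.Ros.Basic

/-!
# The composition lemma
-/

namespace Pool.Agent.Ros
open Finset
variable {n : ℕ → ℕ}

lemma compose_exp (j m : ℕ) (hj : 1 ≤ j) (hm : 1 ≤ m) (hmj : m ≤ j) :
    (1 + 1 / (j : ℝ)) * Real.exp (2 / ((2 * j : ℕ) : ℝ)) ≤ Real.exp (2 / (m : ℝ)) := by
  have hj' : (0 : ℝ) < j := by exact_mod_cast hj
  have hm' : (0 : ℝ) < m := by exact_mod_cast hm
  have h1 : (1 + 1 / (j : ℝ)) ≤ Real.exp (1 / (j : ℝ)) := by
    have := Real.add_one_le_exp (1 / (j : ℝ)); linarith
  have h2 : (2 / ((2 * j : ℕ) : ℝ)) = 1 / (j : ℝ) := by push_cast; field_simp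
  rw [h2]
  calc (1 + 1 / (j : ℝ)) * Real.exp (1 / (j : ℝ))
      ≤ Real.exp (1 / (j : ℝ)) * Real.exp (1 / (j : ℝ)) :=
        mul_le_mul_of_nonneg_right h1 (Real.exp_pos _).le
    _ = Real.exp (2 / (j : ℝ)) := by rw [← Real.exp_add]; ring_nf
    _ ≤ Real.exp (2 / (m : ℝ)) := by
        apply Real.exp_le_exp.mpr
        apply div_le_div_of_nonneg_left (by norm_num) hm' (by exact_mod_cast hmj)

lemma compose_mem_support {h : ℕ → ℕ →₀ ℝ} {c : ℕ →₀ ℝ} {i : ℕ}
    (hi : i ∈ (Finsupp.linearCombination ℝ h c).support) :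
    ∃ k ∈ c.support, i ∈ (h k).support := by
  by_contra hcon
  push Not at hcon
  rw [Finsupp.mem_support_iff] at hi
  apply hi
  rw [Finsupp.linearCombination_apply, Finsupp.sum, Finsupp.finsetSum_apply]
  refine Finset.sum_eq_zero fun k hk => ?_
  have := Finsupp.notMem_support_iff.mp (hcon k hk)
  rw [Finsupp.smul_apply, this, smul_zero]

lemma compose_node_apply_le (hn : Params n) {j r : ℕ} {C : Finset ℕ} {f : ℕ → ℕ →₀ ℝ}
    {A : ℕ → Finset ℕ} (hF : ∀ c ∈ C, F n (f c) (A c))
    (hs : ∀ c ∈ C, ∀ c' ∈ C, c < c' → ∀ i ∈ (f c).support, ∀ i' ∈ (f c').support, i < i')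
    (k : ℕ) : ((gam j r / n j) • ∑ c ∈ C, f c) k ≤ (j : ℝ) / n j := by
  rw [Finsupp.smul_apply, smul_eq_mul]
  have h0 := coef_nonneg (n := n) j r
  have h1 := coef_le (n := n) j r
  refine le_trans ?_ h1
  by_cases hex : ∃ c ∈ C, k ∈ (f c).support
  · obtain ⟨c, hc, hk⟩ := hex
    rw [sum_apply_eq hs hc hk]
    exact mul_le_of_le_one_right h0 ((hF c hc).le_one hn k)
  · push Not at hex
    rw [sum_apply_eq_zero hex, mul_zero]
    exact h0

lemma compose_mem_node_support (hn : Params n) {j r : ℕ} (hj : 1 ≤ j) {C : Finset ℕ}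
    {f : ℕ → ℕ →₀ ℝ}
    (hs : ∀ c ∈ C, ∀ c' ∈ C, c < c' → ∀ i ∈ (f c).support, ∀ i' ∈ (f c').support, i < i')
    {k c : ℕ} (hc : c ∈ C) (hk : k ∈ (f c).support) :
    k ∈ ((gam j r / n j) • ∑ c ∈ C, f c).support := by
  rw [Finsupp.mem_support_iff, Finsupp.smul_apply, smul_eq_mul, sum_apply_eq hs hc hk]
  have hj' : (0 : ℝ) < j := by exact_mod_cast hj
  have hnj : (0 : ℝ) < n j := by exact_mod_cast hn.pos hj
  have hg : 0 < gam j r := by unfold gam; positivity
  exact mul_ne_zero (div_pos hg hnj).ne' (Finsupp.mem_support_iff.mp hk)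

/-- **Composition lemma.** -/
theorem compose (hn : Params n) (h : ℕ → ℕ →₀ ℝ) (B : ℕ → Finset ℕ) (hF : ∀ k, F n (h k) (B k))
    (hB : ∀ k, (B k).Nonempty)
    (hsucc : ∀ k k', k < k' → ∀ i ∈ (h k).support, ∀ i' ∈ (h k').support, i < i')
    (hgap : ∀ k k', k < k' → ∀ x ∈ B k, ∀ y ∈ B k', 2 * x ≤ y)
    (ε : ℕ → ℝ) (hε0 : ∀ k, 0 ≤ ε k)
    (hε : ∀ k i, 1 ≤ i → (∃ x ∈ B k, x < 2 * i) → (i : ℝ) / n i ≤ ε k)
    {g : ℕ →₀ ℝ} {A : Finset ℕ} (hg : F n g A) :
    ∀ m : ℕ, 1 ≤ m → (∀ x ∈ A, m ≤ x) → ∀ R : Finset ℕ,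
      ∃ (c : ℕ →₀ ℝ) (A' : Finset ℕ), (∀ k, 0 ≤ c k) ∧ c.support ⊆ g.support ∩ R ∧
        (∀ k ∈ R, g k ≤ Real.exp (2 / m) * c k + ε k) ∧
        F n (Finsupp.linearCombination ℝ h c) A' ∧
        (∀ x ∈ A', (∃ k ∈ g.support ∩ R, x ∈ B k) ∨
          (x ∈ A ∧ ∃ k ∈ g.support ∩ R, ∀ y ∈ B k, 2 * x ≤ y)) := by
  induction hg with
  | zero =>
    intro m hm hAm R
    refine ⟨0, ∅, by simp, by simp, fun k _ => by simpa using hε0 k, ?_, by simp⟩
    rw [map_zero]; exact F.zero
  | leaf k0 =>
    intro m hm hAm R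
    by_cases hk0 : k0 ∈ R
    · refine ⟨Finsupp.single k0 1, B k0, ?_, ?_, ?_, ?_, ?_⟩
      · intro k; rw [Finsupp.single_apply]; split_ifs <;> norm_num
      · intro k hk
        rw [Finset.mem_inter]
        refine ⟨hk, ?_⟩
        have := Finsupp.support_single_subset hk
        rw [Finset.mem_singleton] at this
        rw [this]; exact hk0
      · intro k _
        have h1 : (1 : ℝ) ≤ Real.exp (2 / (m : ℝ)) := Real.one_le_exp (by positivity)
        have h2 : (0 : ℝ) ≤ (Finsupp.single k0 (1 : ℝ)) k := by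
          rw [Finsupp.single_apply]; split_ifs <;> norm_num
        have h3 := hε0 k
        nlinarith
      · rw [Finsupp.linearCombination_single, one_smul]
        exact hF k0
      · intro x hx
        left
        refine ⟨k0, ?_, hx⟩
        rw [Finset.mem_inter, Finsupp.mem_support_iff]
        exact ⟨by simp, hk0⟩
    · refine ⟨0, ∅, by simp, by simp, ?_, ?_, by simp⟩
      · intro k hk
        have hne : k0 ≠ k := fun he => hk0 (he ▸ hk)
        rw [Finsupp.single_apply, if_neg hne]
        simpa using hε0 k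
      · rw [map_zero]; exact F.zero
  | node j r C f A hj hC hF' hs hA hr ih =>
    intro m hm hAm R
    have hmj : m ≤ j := hAm j (Finset.mem_insert_self _ _)
    set R' := R.filter (fun k => ∀ y ∈ B k, 2 * j ≤ y) with hR'
    have hR'R : R' ⊆ R := Finset.filter_subset _ _
    have ih' : ∀ c ∈ C, ∃ (cc : ℕ →₀ ℝ) (A' : Finset ℕ), (∀ k, 0 ≤ cc k) ∧
        cc.support ⊆ (f c).support ∩ R' ∧
        (∀ k ∈ R', (f c) k ≤ Real.exp (2 / ((2 * j : ℕ) : ℝ)) * cc k + ε k) ∧
        F n (Finsupp.linearCombination ℝ h cc) A' ∧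
        (∀ x ∈ A', (∃ k ∈ (f c).support ∩ R', x ∈ B k) ∨
          (x ∈ A c ∧ ∃ k ∈ (f c).support ∩ R', ∀ y ∈ B k, 2 * x ≤ y)) := by
      intro c hc
      exact ih c hc (2 * j) (by omega) (hA c hc) R'
    choose! cc AA h0 hsupp hest hFF hAA using ih'
    set G := (gam j r / n j) • ∑ c ∈ C, f c with hG
    have hGsupp : ∀ c ∈ C, ∀ k ∈ (f c).support, k ∈ G.support := fun c hc k hk =>
      compose_mem_node_support hn hj hs hc hk
    have hsmall : ∀ k ∈ R, k ∉ R' → G k ≤ ε k := by
      intro k hk hk'
      have : ∃ y ∈ B k, y < 2 * j := by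
        by_contra hcon
        push Not at hcon
        exact hk' (Finset.mem_filter.mpr ⟨hk, hcon⟩)
      exact (compose_node_apply_le hn hF' hs k).trans (hε k j hj this)
    by_cases hne : (G.support ∩ R').Nonempty
    · refine ⟨(gam j (r + 1) / n j) • ∑ c ∈ C, cc c, insert j (C.biUnion AA), ?_, ?_, ?_, ?_, ?_⟩
      · intro k
        rw [Finsupp.smul_apply, Finsupp.finsetSum_apply, smul_eq_mul]
        exact mul_nonneg (coef_nonneg _ _) (Finset.sum_nonneg fun c hc => h0 c hc k)
      · intro k hk
        have h1 := support_node_subset _ _ _ hk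
        rw [Finset.mem_biUnion] at h1
        obtain ⟨c, hc, hk⟩ := h1
        have h2 := Finset.mem_inter.mp (hsupp c hc hk)
        exact Finset.mem_inter.mpr ⟨hGsupp c hc k h2.1, hR'R h2.2⟩
      · intro k hk
        have hexp := Real.exp_pos (2 / (m : ℝ))
        have hcpos : 0 ≤ ((gam j (r + 1) / n j) • ∑ c ∈ C, cc c) k := by
          rw [Finsupp.smul_apply, Finsupp.finsetSum_apply, smul_eq_mul]
          exact mul_nonneg (coef_nonneg _ _) (Finset.sum_nonneg fun c hc => h0 c hc k)
        by_cases hk' : k ∈ R'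
        · by_cases hex : ∃ c ∈ C, k ∈ (f c).support
          · obtain ⟨c0, hc0, hkc⟩ := hex
            have e1 : G k = (gam j r / n j) * f c0 k := by
              rw [hG, Finsupp.smul_apply, smul_eq_mul, sum_apply_eq hs hc0 hkc]
            have e2 : (gam j (r + 1) / n j) * cc c0 k ≤
                ((gam j (r + 1) / n j) • ∑ c ∈ C, cc c) k := by
              rw [Finsupp.smul_apply, Finsupp.finsetSum_apply, smul_eq_mul]
              apply mul_le_mul_of_nonneg_left _ (coef_nonneg _ _)
              exact Finset.single_le_sum (f := fun c => cc c k) (fun c hc => h0 c hc k) hc0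
            have e3 := hest c0 hc0 k hk'
            have hnj : (0 : ℝ) ≤ n j := Nat.cast_nonneg _
            have e4 : gam j r / n j ≤ (1 + 1 / (j : ℝ)) * (gam j (r + 1) / n j) := by
              rw [← mul_div_assoc]
              exact div_le_div_of_nonneg_right (gam_ratio_succ j r hj) hnj
            have e5 := compose_exp j m hj hm hmj
            have e6 := coef_nonneg (n := n) j r
            have e7 := coef_le_one hn hj r
            have e8 := coef_nonneg (n := n) j (r + 1)
            have e9 := h0 c0 hc0 k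
            have e10 := hε0 k
            set X := Real.exp (2 / ((2 * j : ℕ) : ℝ)) with hX
            have hX0 : 0 < X := Real.exp_pos _
            rw [e1]
            calc (gam j r / n j) * f c0 k ≤ (gam j r / n j) * (X * cc c0 k + ε k) :=
                  mul_le_mul_of_nonneg_left e3 e6
              _ = (gam j r / n j) * (X * cc c0 k) + (gam j r / n j) * ε k := by ring
              _ ≤ ((1 + 1 / (j : ℝ)) * (gam j (r + 1) / n j)) * (X * cc c0 k) + 1 * ε k := by
                  apply add_le_add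
                  · exact mul_le_mul_of_nonneg_right e4 (mul_nonneg hX0.le e9)
                  · exact mul_le_mul_of_nonneg_right e7 e10
              _ = ((1 + 1 / (j : ℝ)) * X) * ((gam j (r + 1) / n j) * cc c0 k) + ε k := by ring
              _ ≤ Real.exp (2 / (m : ℝ)) * ((gam j (r + 1) / n j) * cc c0 k) + ε k := by
                  have := mul_le_mul_of_nonneg_right e5 (mul_nonneg e8 e9)
                  linarith
              _ ≤ Real.exp (2 / (m : ℝ)) * ((gam j (r + 1) / n j) • ∑ c ∈ C, cc c) k + ε k := by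
                  have := mul_le_mul_of_nonneg_left e2 hexp.le
                  linarith
          · push Not at hex
            have : G k = 0 := by
              rw [hG, Finsupp.smul_apply, sum_apply_eq_zero hex, smul_zero]
            rw [this]
            have := mul_nonneg hexp.le hcpos
            linarith [hε0 k]
        · have := hsmall k hk hk'
          have := mul_nonneg hexp.le hcpos
          linarith
      · rw [map_smul, map_sum]
        refine F.node j (r + 1) C (fun c => Finsupp.linearCombination ℝ h (cc c)) AA hj hC hFF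
          ?_ ?_ ?_
        · intro c hc c' hc' hcc i hi i' hi'
          obtain ⟨k, hk, hik⟩ := compose_mem_support hi
          obtain ⟨k', hk', hik'⟩ := compose_mem_support hi'
          have h1 := Finset.mem_inter.mp (hsupp c hc hk)
          have h2 := Finset.mem_inter.mp (hsupp c' hc' hk')
          exact hsucc k k' (hs c hc c' hc' hcc k h1.1 k' h2.1) i hik i' hik'
        · intro c hc x hx
          rcases hAA c hc x hx with ⟨k, hk, hxk⟩ | ⟨hxA, _⟩
          · exact (Finset.mem_filter.mp (Finset.mem_inter.mp hk).2).2 x hxk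
          · exact hA c hc x hxA
        · intro q hq
          rcases q with _ | q
          · omega
          · obtain ⟨p, x, h1, h2⟩ := hq
            have hch : HasChain C A q := by
              refine ⟨p, x, fun i hi => ⟨(h1 i (by omega)).1, ?_⟩, fun i hi => h2 i (by omega)⟩
              obtain ⟨hp, hx⟩ := h1 i (by omega)
              rcases hAA (p i) hp (x i) hx with ⟨k, hk, hxk⟩ | ⟨hxA, _⟩
              · exfalso
                obtain ⟨hp', hx'⟩ := h1 (i + 1) (by omega)
                obtain ⟨hlt, hxlt⟩ := h2 i (by omega)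
                have hkf := (Finset.mem_inter.mp hk).1
                rcases hAA (p (i + 1)) hp' (x (i + 1)) hx' with ⟨k', hk', hxk'⟩ | ⟨_, k', hk', hy⟩
                · have hkf' := (Finset.mem_inter.mp hk').1
                  have hkk := hs (p (i + 1)) hp' (p i) hp hlt k' hkf' k hkf
                  have := hgap k' k hkk _ hxk' _ hxk
                  omega
                · have hkf' := (Finset.mem_inter.mp hk').1
                  have hkk := hs (p (i + 1)) hp' (p i) hp hlt k' hkf' k hkf
                  obtain ⟨y, hyB⟩ := hB k'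
                  have h3 := hy y hyB
                  have h4 := hgap k' k hkk _ hyB _ hxk
                  omega
              · exact hxA
            have := hr q hch
            omega
      · intro x hx
        rw [Finset.mem_insert, Finset.mem_biUnion] at hx
        rcases hx with rfl | ⟨c, hc, hx⟩
        · right
          refine ⟨Finset.mem_insert_self _ _, ?_⟩
          obtain ⟨k, hk⟩ := hne
          obtain ⟨hk1, hk2⟩ := Finset.mem_inter.mp hk
          exact ⟨k, Finset.mem_inter.mpr ⟨hk1, hR'R hk2⟩, (Finset.mem_filter.mp hk2).2⟩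
        · rcases hAA c hc x hx with ⟨k, hk, hxk⟩ | ⟨hxA, k, hk, hy⟩
          · left
            obtain ⟨hk1, hk2⟩ := Finset.mem_inter.mp hk
            exact ⟨k, Finset.mem_inter.mpr ⟨hGsupp c hc k hk1, hR'R hk2⟩, hxk⟩
          · right
            obtain ⟨hk1, hk2⟩ := Finset.mem_inter.mp hk
            exact ⟨Finset.mem_insert_of_mem (Finset.mem_biUnion.mpr ⟨c, hc, hxA⟩), k,
              Finset.mem_inter.mpr ⟨hGsupp c hc k hk1, hR'R hk2⟩, hy⟩
    · refine ⟨0, ∅, by simp, by simp, ?_, ?_, by simp⟩
      · intro k hk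
        by_cases hk' : k ∈ R'
        · have : k ∉ G.support := fun hkG => hne ⟨k, Finset.mem_inter.mpr ⟨hkG, hk'⟩⟩
          rw [Finsupp.notMem_support_iff.mp this]
          simpa using hε0 k
        · simpa using hsmall k hk hk'
      · rw [map_zero]; exact F.zero

end Pool.Agent.Ros
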