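import Mathlib

/-!
# A Rosenthal basis that is not equivalent to the basis of `c₀` or `ℓ_p`: definitions

`F n f A` : the norming set.  `f : ℕ →₀ ℝ` is a finitely supported functional and `A` the finite set
of all indices of nodes used to build it.
-/

namespace Pool.Agent.Ros

open Finset

/-- The value of the functional `f` at the scalar sequence `w`. Linear in `f`. -/
noncomputable def E (w : ℕ → ℝ) : (ℕ →₀ ℝ) →ₗ[ℝ] ℝ := Finsupp.linearCombination ℝ w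

/-- The weight `γ_j(r) = j² / (j + r)`. -/
noncomputable def gam (j r : ℕ) : ℝ := (j : ℝ) ^ 2 / ((j : ℝ) + (r : ℝ))

/-- There is a right-to-left chain of length `m` in the family `(A c)_{c ∈ C}`:
positions `c 0 > c 1 > ... > c (m-1)` in `C` and elements `x i ∈ A (c i)` with `x i < 2 x (i+1)`. -/
def HasChain (C : Finset ℕ) (A : ℕ → Finset ℕ) (m : ℕ) : Prop :=
  ∃ c x : ℕ → ℕ, (∀ i < m, c i ∈ C ∧ x i ∈ A (c i)) ∧
    (∀ i, i + 1 < m → c (i + 1) < c i ∧ x i < 2 * x (i + 1))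

/-- The norming set. -/
inductive F (n : ℕ → ℕ) : (ℕ →₀ ℝ) → Finset ℕ → Prop
  | zero : F n 0 ∅
  | leaf (k : ℕ) : F n (Finsupp.single k 1) ∅
  | node (j r : ℕ) (C : Finset ℕ) (f : ℕ → ℕ →₀ ℝ) (A : ℕ → Finset ℕ)
      (hj : 1 ≤ j) (hC : C.card ≤ n j)
      (hF : ∀ c ∈ C, F n (f c) (A c))
      (hs : ∀ c ∈ C, ∀ c' ∈ C, c < c' → ∀ i ∈ (f c).support, ∀ i' ∈ (f c').support, i < i')
      (hA : ∀ c ∈ C, ∀ x ∈ A c, 2 * j ≤ x)
      (hr : ∀ m, HasChain C A m → m ≤ r) :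
      F n ((gam j r / n j) • ∑ c ∈ C, f c) (insert j (C.biUnion A))

/-- The growth conditions on the sequence `n`. -/
structure Params (n : ℕ → ℕ) : Prop where
  lin : ∀ j, 1 ≤ j → 4 * j + 2 ≤ n j
  sq : ∀ j, 1 ≤ j → 4 * j ^ 2 < n j
  grow : ∀ j, 1 ≤ j → 2 * (j + 1) ^ 2 * (n j) ^ 2 ≤ n (j + 1)
  mul : ∀ i j, j < i → i * n j ≤ n i
  exp : ∀ i, 1 ≤ i → i * 2 ^ i ≤ n i
  fact : ∀ j, 1 ≤ j → (j.factorial * j) ^ j ≤ n j

/-- The norm on finitely supported sequences. -/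
noncomputable def N (n : ℕ → ℕ) (x : ℕ →₀ ℝ) : ℝ :=
  sSup {t : ℝ | ∃ f A, F n f A ∧ t = E (fun i => |x i|) f}

/-- `(v k)` is a sequence of successive finitely supported vectors. -/
def Succ (v : ℕ → ℕ →₀ ℝ) : Prop :=
  ∀ k k', k < k' → ∀ i ∈ (v k).support, ∀ i' ∈ (v k').support, i < i'

end Pool.Agent.Ros
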