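import Pool.Agent.Helper80.Ros.Basic

/-!
# The escape lemma
-/

namespace Pool.Agent.Ros
open Finset
variable {n : ℕ → ℕ}

/-- the iterated form of the negation of the escape lemma -/
lemma escape_iter (hn : Params n) (w : ℕ → ℕ → ℝ) (hw0 : ∀ k i, 0 ≤ w k i)
    (H : ∀ η : ℝ, 0 < η → ∃ B M : ℕ, ∀ k, M ≤ k → ∀ f A, F n f A → η ≤ E (w k) f →
      ∃ x ∈ A, x < B) (d : ℕ) :
    ∀ η : ℝ, 0 < η → ∃ β M : ℕ, ∀ k, M ≤ k → ∀ m f A, F n f A → (∀ x ∈ A, m ≤ x) →
      η ≤ E (w k) f → ∃ x ∈ A, m + d ≤ x ∧ x < β := by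
  induction d with
  | zero =>
    intro η hη
    obtain ⟨B, M, h⟩ := H η hη
    refine ⟨B, M, fun k hk m f A hf hm hE => ?_⟩
    obtain ⟨x, hx, hxB⟩ := h k hk f A hf hE
    exact ⟨x, hx, by simpa using hm x hx, hxB⟩
  | succ d ih =>
    intro η hη
    obtain ⟨B, M1, h1⟩ := H η hη
    have hη' : 0 < η / ((B : ℝ) + 1) := by positivity
    obtain ⟨β, M2, h2⟩ := ih _ hη'
    refine ⟨β, max M1 M2, fun k hk m g A' hf hm hE => ?_⟩
    obtain ⟨x0, hx0, hx0B⟩ := h1 k ((le_max_left _ _).trans hk) g A' hf hE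
    cases hf with
    | zero => simp at hx0
    | leaf i => simp at hx0
    | node j r C f A hj hC hF hs hA hr =>
      have hmj : m ≤ j := hm j (Finset.mem_insert_self _ _)
      have hjB : j < B := by
        rw [Finset.mem_insert, Finset.mem_biUnion] at hx0
        rcases hx0 with h | ⟨c, hc, hx⟩
        · omega
        · have := hA c hc x0 hx; omega
      have hnj : (0 : ℝ) < n j := by exact_mod_cast hn.pos hj
      have hex : ∃ c ∈ C, η / ((B : ℝ) + 1) ≤ E (w k) (f c) := by
        by_contra hcon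
        push Not at hcon
        have hsum : ∑ c ∈ C, E (w k) (f c) ≤ (n j : ℝ) * (η / ((B : ℝ) + 1)) := by
          calc ∑ c ∈ C, E (w k) (f c) ≤ ∑ c ∈ C, η / ((B : ℝ) + 1) :=
                Finset.sum_le_sum fun c hc => (hcon c hc).le
            _ = (C.card : ℝ) * (η / ((B : ℝ) + 1)) := by simp
            _ ≤ (n j : ℝ) * (η / ((B : ℝ) + 1)) := by
                apply mul_le_mul_of_nonneg_right _ hη'.le
                exact_mod_cast hC
        rw [E_node] at hE
        have hval : gam j r / n j * ∑ c ∈ C, E (w k) (f c) ≤ (j : ℝ) * (η / ((B : ℝ) + 1)) := by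
          calc gam j r / n j * ∑ c ∈ C, E (w k) (f c)
              ≤ (j : ℝ) / n j * ((n j : ℝ) * (η / ((B : ℝ) + 1))) :=
                mul_le_mul (coef_le j r) hsum
                  (Finset.sum_nonneg fun c hc => (hF c hc).E_nonneg (hw0 k)) (by positivity)
            _ = _ := by field_simp
        have hlt : (j : ℝ) * (η / ((B : ℝ) + 1)) < η := by
          have hjB' : (j : ℝ) < B + 1 := by
            have : (j : ℝ) < B := by exact_mod_cast hjB
            linarith
          rw [← mul_div_assoc, div_lt_iff₀ (by positivity)]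
          nlinarith
        linarith
      obtain ⟨c, hc, hcE⟩ := hex
      obtain ⟨x, hx, hx1, hx2⟩ := h2 k ((le_max_right _ _).trans hk) (m + 1) (f c) (A c) (hF c hc)
        (fun x hx => by have := hA c hc x hx; omega) hcE
      refine ⟨x, ?_, by omega, hx2⟩
      rw [Finset.mem_insert, Finset.mem_biUnion]
      exact Or.inr ⟨c, hc, hx⟩

/-- **Escape lemma.** -/
theorem escape (hn : Params n) (w : ℕ → ℕ → ℝ) (hw0 : ∀ k i, 0 ≤ w k i)
    (hw1 : ∀ k f A, F n f A → E (w k) f ≤ 1)
    (hlow : ∀ k, ∃ f A, F n f A ∧ 1 / 2 ≤ E (w k) f) :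
    ∃ η : ℝ, 0 < η ∧ ∀ B M : ℕ, ∃ k, M ≤ k ∧ ∃ f A, F n f A ∧ η ≤ E (w k) f ∧ ∀ x ∈ A, B ≤ x := by
  by_contra hcon
  push Not at hcon
  have H : ∀ η : ℝ, 0 < η → ∃ B M : ℕ, ∀ k, M ≤ k → ∀ f A, F n f A → η ≤ E (w k) f →
      ∃ x ∈ A, x < B := hcon
  obtain ⟨b, M0, hb⟩ := H (1 / 2) (by norm_num)
  set η0 : ℝ := 1 / (4 * ((b : ℝ) + 1)) with hη0
  have hη0pos : 0 < η0 := by positivity
  have hQ : ∀ d, ∃ β M : ℕ, ∀ k, M ≤ k → ∀ f A, F n f A → η0 ≤ E (w k) f →
      ∃ x ∈ A, d ≤ x ∧ x < β := by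
    intro d
    obtain ⟨β, M, h⟩ := escape_iter hn w hw0 H d η0 hη0pos
    refine ⟨β, M, fun k hk f A hf hE => ?_⟩
    obtain ⟨x, hx, h1, h2⟩ := h k hk 0 f A hf (fun x _ => Nat.zero_le x) hE
    exact ⟨x, hx, by omega, h2⟩
  choose β Mf hβ using hQ
  -- the thresholds
  let D : ℕ → ℕ := fun i => Nat.rec 0 (fun _ d => β d) i
  have hD : ∀ i, D (i + 1) = β (D i) := fun i => rfl
  set L : ℕ := ∑ j ∈ range b, n j with hL
  set M : ℕ := M0 + ∑ i ∈ range L, Mf (D i) with hM
  have hMf : ∀ i < L, Mf (D i) ≤ M := by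
    intro i hi
    have := Finset.single_le_sum (f := fun i => Mf (D i)) (fun i _ => Nat.zero_le _)
      (Finset.mem_range.mpr hi)
    have h2 : Mf (D i) ≤ ∑ i ∈ range L, Mf (D i) := this
    omega
  obtain ⟨g, A', hf, hE⟩ := hlow M
  obtain ⟨x0, hx0, hx0b⟩ := hb M (by omega) g A' hf hE
  cases hf with
  | zero => simp at hx0
  | leaf i => simp at hx0
  | node j r C f A hj hC hF hs hA hr =>
    have hjb : j < b := by
      rw [Finset.mem_insert, Finset.mem_biUnion] at hx0
      rcases hx0 with h | ⟨c, hc, hx⟩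
      · omega
      · have := hA c hc x0 hx; omega
    have hnj : (0 : ℝ) < n j := by exact_mod_cast hn.pos hj
    rw [E_node] at hE
    classical
    set V : Finset ℕ := C.filter fun c => η0 ≤ E (w M) (f c) with hV
    have hVC : V ⊆ C := Finset.filter_subset _ _
    -- the small children
    have hsmall : ∑ c ∈ C.filter (fun c => ¬ η0 ≤ E (w M) (f c)), E (w M) (f c)
        ≤ (n j : ℝ) * η0 := by
      calc ∑ c ∈ C.filter (fun c => ¬ η0 ≤ E (w M) (f c)), E (w M) (f c)
          ≤ ∑ c ∈ C.filter (fun c => ¬ η0 ≤ E (w M) (f c)), η0 :=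
            Finset.sum_le_sum fun c hc => (not_le.mp (Finset.mem_filter.mp hc).2).le
        _ = ((C.filter (fun c => ¬ η0 ≤ E (w M) (f c))).card : ℝ) * η0 := by simp
        _ ≤ (n j : ℝ) * η0 := by
            apply mul_le_mul_of_nonneg_right _ hη0pos.le
            exact_mod_cast (Finset.card_filter_le _ _).trans hC
    have hbig : ∑ c ∈ V, E (w M) (f c) ≤ (V.card : ℝ) := by
      calc ∑ c ∈ V, E (w M) (f c) ≤ ∑ c ∈ V, (1 : ℝ) :=
            Finset.sum_le_sum fun c hc => hw1 M _ _ (hF c (hVC hc))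
        _ = _ := by simp
    have hsplit : ∑ c ∈ C, E (w M) (f c) = ∑ c ∈ V, E (w M) (f c) +
        ∑ c ∈ C.filter (fun c => ¬ η0 ≤ E (w M) (f c)), E (w M) (f c) :=
      (Finset.sum_filter_add_sum_filter_not C _ _).symm
    have hcoef0 := coef_nonneg (n := n) j r
    have hq : (1 : ℝ) / 4 ≤ gam j r / n j * V.card := by
      have h1 : gam j r / n j * ((n j : ℝ) * η0) ≤ 1 / 4 := by
        calc gam j r / n j * ((n j : ℝ) * η0) ≤ (j : ℝ) / n j * ((n j : ℝ) * η0) :=
              mul_le_mul_of_nonneg_right (coef_le j r) (by positivity)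
          _ = j * η0 := by field_simp
          _ ≤ ((b : ℝ) + 1) * η0 := by
              apply mul_le_mul_of_nonneg_right _ hη0pos.le
              have : (j : ℝ) < b := by exact_mod_cast hjb
              linarith
          _ = 1 / 4 := by rw [hη0]; field_simp
      rw [hsplit, mul_add] at hE
      have h2 := mul_le_mul_of_nonneg_left hbig hcoef0
      have h3 := mul_le_mul_of_nonneg_left hsmall hcoef0
      linarith
    -- the chain
    have hVL : V.card ≤ L := by
      have h1 : V.card ≤ n j := (Finset.card_le_card hVC).trans hC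
      have h2 : n j ≤ ∑ j ∈ range b, n j :=
        Finset.single_le_sum (f := n) (fun i _ => Nat.zero_le _) (Finset.mem_range.mpr hjb)
      omega
    have hchain : HasChain C A V.card := by
      let v := V.card
      let p : ℕ → ℕ := fun i => if h : v - 1 - i < v then V.orderEmbOfFin rfl ⟨v - 1 - i, h⟩ else 0
      have hp : ∀ i < v, ∃ h : v - 1 - i < v, p i = V.orderEmbOfFin rfl ⟨v - 1 - i, h⟩ := by
        intro i hi
        have h : v - 1 - i < v := by omega
        exact ⟨h, dif_pos h⟩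
      have hpV : ∀ i < v, p i ∈ V := by
        intro i hi
        obtain ⟨h, he⟩ := hp i hi
        rw [he]
        exact Finset.orderEmbOfFin_mem V rfl _
      have hx : ∀ i, ∃ x, i < v → x ∈ A (p i) ∧ D i ≤ x ∧ x < D (i + 1) := by
        intro i
        by_cases hi : i < v
        · have hpi := hpV i hi
          obtain ⟨x, hx, h1, h2⟩ := hβ (D i) M (hMf i (lt_of_lt_of_le hi hVL)) (f (p i)) (A (p i))
            (hF _ (hVC hpi)) (Finset.mem_filter.mp hpi).2
          exact ⟨x, fun _ => ⟨hx, h1, h2⟩⟩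
        · exact ⟨0, fun h => absurd h hi⟩
      choose x hx using hx
      refine ⟨p, x, fun i hi => ⟨hVC (hpV i hi), (hx i hi).1⟩, fun i hi => ⟨?_, ?_⟩⟩
      · obtain ⟨h1, he1⟩ := hp i (by omega)
        obtain ⟨h2, he2⟩ := hp (i + 1) hi
        rw [he1, he2]
        apply (V.orderEmbOfFin rfl).strictMono
        rw [Fin.mk_lt_mk]
        omega
      · have h1 := (hx i (by omega)).2.2
        have h2 := (hx (i + 1) hi).2.1
        omega
    have hvr : V.card ≤ r := hr _ hchain
    have h4 : gam j r / n j * V.card ≤ (j : ℝ) ^ 2 / n j := by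
      rw [div_mul_eq_mul_div]
      apply div_le_div_of_nonneg_right _ (Nat.cast_nonneg _)
      calc gam j r * V.card ≤ gam j r * r := by
            apply mul_le_mul_of_nonneg_left _ (gam_nonneg _ _)
            exact_mod_cast hvr
        _ ≤ _ := gam_mul_le j r
    have h5 : (j : ℝ) ^ 2 / n j < 1 / 4 := by
      have : (4 : ℝ) * (j : ℝ) ^ 2 < n j := by exact_mod_cast hn.sq j hj
      rw [div_lt_iff₀ hnj]
      linarith
    linarith

end Pool.Agent.Ros
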