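import Pool.Agent.Helper80.Ros.UpperAux

/-!
# The upper estimate
-/

namespace Pool.Agent.Ros

open Finset

variable {n : ℕ → ℕ}

/-- the admissible majorants in the upper lemma -/
def Adm (n : ℕ → ℕ) (w : ℕ → ℕ → ℝ) (f : ℕ →₀ ℝ) (A K : Finset ℕ) (g : ℕ →₀ ℝ)
    (A' : Finset ℕ) : Prop :=
  F n g A' ∧ (∀ x ∈ A', x + 1 ∈ A) ∧ (∀ k ∈ g.support, k ∈ K ∧ ∃ i ∈ f.support, w k i ≠ 0)

lemma adm_zero (w : ℕ → ℕ → ℝ) (f : ℕ →₀ ℝ) (A K : Finset ℕ) : Adm n w f A K 0 ∅ :=
  ⟨F.zero, by simp, by simp⟩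

lemma adm_max {w : ℕ → ℕ → ℝ} {f : ℕ →₀ ℝ} {A K : Finset ℕ} (a : ℕ → ℝ) {g₁ g₂ : ℕ →₀ ℝ}
    {A₁ A₂ : Finset ℕ} (h₁ : Adm n w f A K g₁ A₁) (h₂ : Adm n w f A K g₂ A₂) :
    ∃ g A', Adm n w f A K g A' ∧ E a g₁ ≤ E a g ∧ E a g₂ ≤ E a g := by
  rcases le_total (E a g₁) (E a g₂) with h | h
  · exact ⟨g₂, A₂, h₂, h, le_refl _⟩
  · exact ⟨g₁, A₁, h₁, le_refl _, h⟩

lemma coef_pos (hn : Params n) {j : ℕ} (hj : 1 ≤ j) (r : ℕ) : 0 < gam j r / n j := by
  have h1 : (0 : ℝ) < n j := by exact_mod_cast hn.pos hj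
  have h2 : (0 : ℝ) < j := by exact_mod_cast hj
  unfold gam
  positivity

lemma mem_support_node (hn : Params n) {j r : ℕ} (hj : 1 ≤ j) {C : Finset ℕ} {f : ℕ → ℕ →₀ ℝ}
    (hs : ∀ c ∈ C, ∀ c' ∈ C, c < c' → ∀ i ∈ (f c).support, ∀ i' ∈ (f c').support, i < i')
    {c i : ℕ} (hc : c ∈ C) (hi : i ∈ (f c).support) :
    i ∈ ((gam j r / n j) • ∑ c ∈ C, f c).support := by
  rw [Finsupp.mem_support_iff, Finsupp.smul_apply, sum_apply_eq hs hc hi, smul_eq_mul]
  exact mul_ne_zero (coef_pos hn hj r).ne' (Finsupp.mem_support_iff.mp hi)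

section node

variable (hn : Params n) (w : ℕ → ℕ → ℝ) (hw0 : ∀ k i, 0 ≤ w k i)
    (hws : ∀ k k', k < k' → ∀ i i', w k i ≠ 0 → w k' i' ≠ 0 → i < i')
    (hw1 : ∀ k f A, F n f A → E (w k) f ≤ 1)
    (a : ℕ → ℝ) (ha : ∀ k, 0 ≤ a k)
    {j r : ℕ} {C : Finset ℕ} {f : ℕ → ℕ →₀ ℝ} {A : ℕ → Finset ℕ}
    (hj2 : 2 ≤ j) (hC : C.card ≤ n j)
    (hF : ∀ c ∈ C, F n (f c) (A c))
    (hs : ∀ c ∈ C, ∀ c' ∈ C, c < c' → ∀ i ∈ (f c).support, ∀ i' ∈ (f c').support, i < i')
    (hA : ∀ c ∈ C, ∀ x ∈ A c, 2 * j ≤ x)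
    (hr : ∀ m, HasChain C A m → m ≤ r)

include hn hw0 hw1 hj2 hF hs hA hr in
/-- value of the node at a vector meeting many children -/
lemma big_block (k : ℕ) (hk : n (j - 1) ≤ (hull w f C k).card) :
    E (w k) ((gam j r / n j) • ∑ c ∈ C, f c) ≤
      ((j : ℝ) / ((j : ℝ) - 1)) ^ 2 * (hull w f C k).card / n j := by
  set p := n (j - 1) with hp
  have hj1 : 1 ≤ j - 1 := by omega
  have hp0 : 0 < p := hn.pos hj1
  have hp0' : (0 : ℝ) < p := by exact_mod_cast hp0
  have hnj : (0 : ℝ) < n j := by exact_mod_cast hn.pos (show 1 ≤ j by omega)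
  obtain ⟨T, hTS, hTc, hT⟩ := exists_top (hull w f C k) (fun c => E (w k) (f c)) p hk
  have hTC : T ⊆ C := hTS.trans (hull_subset k)
  have hnode := F.node_sub (n := n) (j' := j - 1) (j := j) hF hs hA hr hTC hj1 (by omega)
    (by rw [hTc])
  have hval := hw1 k _ _ hnode
  rw [E_node, div_mul_eq_mul_div, div_le_one (by exact_mod_cast hp0)] at hval
  have hsum : ∑ c ∈ C, E (w k) (f c) = ∑ c ∈ hull w f C k, E (w k) (f c) := by
    symm
    apply Finset.sum_subset (hull_subset k)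
    intro c hc hc'
    apply E_eq_zero_of_not_meets
    intro hm
    exact hc' (mem_hull_of_meets hc hm)
  have havg := top_avg hTS hT
  rw [hTc] at havg
  rw [E_node, hsum]
  have hg0 := gam_nonneg (j - 1) r
  have hg1 := gam_ratio_pred j r hj2
  have hS0 : 0 ≤ ∑ c ∈ hull w f C k, E (w k) (f c) :=
    Finset.sum_nonneg fun c hc => (hF c (hull_subset k hc)).E_nonneg (hw0 k)
  have hρ : 0 ≤ ((j : ℝ) / ((j : ℝ) - 1)) ^ 2 := sq_nonneg _
  -- gam (j-1) r * ∑_hull ≤ card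
  have h1 : gam (j - 1) r * ∑ c ∈ hull w f C k, E (w k) (f c) ≤ (hull w f C k).card := by
    have h2 : gam (j - 1) r * ((p : ℝ) * ∑ c ∈ hull w f C k, E (w k) (f c)) ≤
        gam (j - 1) r * (((hull w f C k).card : ℝ) * ∑ c ∈ T, E (w k) (f c)) :=
      mul_le_mul_of_nonneg_left havg hg0
    have h3 : ((hull w f C k).card : ℝ) * (gam (j - 1) r * ∑ c ∈ T, E (w k) (f c)) ≤
        ((hull w f C k).card : ℝ) * p := mul_le_mul_of_nonneg_left hval (Nat.cast_nonneg _)
    have h4 : (p : ℝ) * (gam (j - 1) r * ∑ c ∈ hull w f C k, E (w k) (f c)) ≤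
        (p : ℝ) * (hull w f C k).card := by nlinarith
    exact le_of_mul_le_mul_left h4 hp0'
  rw [div_mul_eq_mul_div, div_le_div_iff_of_pos_right hnj]
  calc gam j r * ∑ c ∈ hull w f C k, E (w k) (f c)
      ≤ (((j : ℝ) / ((j : ℝ) - 1)) ^ 2 * gam (j - 1) r) * ∑ c ∈ hull w f C k, E (w k) (f c) :=
        mul_le_mul_of_nonneg_right hg1 hS0
    _ = ((j : ℝ) / ((j : ℝ) - 1)) ^ 2 * (gam (j - 1) r * ∑ c ∈ hull w f C k, E (w k) (f c)) := by
        ring
    _ ≤ _ := mul_le_mul_of_nonneg_left h1 hρ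

include hn hws ha hj2 hs hA hr in
/-- the part of the node not covered by the big blocks -/
lemma thin_part (K C' : Finset ℕ) (hC' : C' ⊆ C)
    (hK : ∀ k ∈ K, (hull w f C k).card < n (j - 1))
    (g : ℕ → ℕ →₀ ℝ) (A' : ℕ → Finset ℕ) (hg : ∀ c ∈ C', Adm n w (f c) (A c) K (g c) (A' c)) :
    ∃ G AG, Adm n w ((gam j r / n j) • ∑ c ∈ C, f c) (insert j (C.biUnion A)) K G AG ∧
      gam j r * ∑ c ∈ C', E a (g c) ≤
        ((j : ℝ) * (n (j - 1) : ℝ) ^ 2 + ((j : ℝ) / ((j : ℝ) - 1)) ^ 2 * C'.card) * E a G := by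
  set p := n (j - 1) with hp
  have hj1 : 1 ≤ j - 1 := by omega
  have hj0 : 1 ≤ j := by omega
  have hp0 : 0 < p := hn.pos hj1
  have hp0' : (0 : ℝ) < p := by exact_mod_cast hp0
  have hρ : 0 ≤ ((j : ℝ) / ((j : ℝ) - 1)) ^ 2 := sq_nonneg _
  have hjr : (0 : ℝ) ≤ j := Nat.cast_nonneg j
  have hv0 : ∀ c ∈ C', 0 ≤ E a (g c) := fun c hc => (hg c hc).1.E_nonneg ha
  -- children give admissible functionals
  have hchild : ∀ c ∈ C', Adm n w ((gam j r / n j) • ∑ c ∈ C, f c) (insert j (C.biUnion A)) K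
      (g c) (A' c) := by
    intro c hc
    obtain ⟨h1, h2, h3⟩ := hg c hc
    refine ⟨h1, fun x hx => ?_, fun k hk => ?_⟩
    · exact Finset.mem_insert_of_mem (Finset.mem_biUnion.mpr ⟨c, hC' hc, h2 x hx⟩)
    · obtain ⟨hkK, i, hi, hwi⟩ := h3 k hk
      exact ⟨hkK, i, mem_support_node hn hj0 hs (hC' hc) hi, hwi⟩
  rcases Finset.eq_empty_or_nonempty C' with he | hne
  · subst he
    exact ⟨0, ∅, adm_zero _ _ _ _, by simp⟩
  obtain ⟨c0, hc0, hmax⟩ := Finset.exists_max_image C' (fun c => E a (g c)) hne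
  have hsumT : ∀ T ⊆ C', ∑ c ∈ T, E a (g c) ≤ T.card * E a (g c0) := by
    intro T hT
    calc ∑ c ∈ T, E a (g c) ≤ ∑ c ∈ T, E a (g c0) :=
          Finset.sum_le_sum fun c hc => hmax c (hT hc)
      _ = _ := by rw [Finset.sum_const, nsmul_eq_mul]
  by_cases hcard : C'.card < p * p
  · refine ⟨g c0, A' c0, hchild c0 hc0, ?_⟩
    have h1 := hsumT C' (Finset.Subset.refl _)
    have h2 : (C'.card : ℝ) ≤ (p : ℝ) ^ 2 := by
      rw [pow_two]; exact_mod_cast hcard.le
    have hV := hv0 c0 hc0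
    have hS0 : 0 ≤ ∑ c ∈ C', E a (g c) := Finset.sum_nonneg hv0
    calc gam j r * ∑ c ∈ C', E a (g c) ≤ j * ∑ c ∈ C', E a (g c) :=
          mul_le_mul_of_nonneg_right (gam_le _ _) hS0
      _ ≤ j * (C'.card * E a (g c0)) := mul_le_mul_of_nonneg_left h1 hjr
      _ ≤ j * ((p : ℝ) ^ 2 * E a (g c0)) := by gcongr
      _ = (j * (p : ℝ) ^ 2) * E a (g c0) := by ring
      _ ≤ ((j : ℝ) * (p : ℝ) ^ 2 + ((j : ℝ) / ((j : ℝ) - 1)) ^ 2 * C'.card) * E a (g c0) := by
          apply mul_le_mul_of_nonneg_right _ hV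
          have : 0 ≤ ((j : ℝ) / ((j : ℝ) - 1)) ^ 2 * C'.card := by positivity
          linarith
  · push Not at hcard
    obtain ⟨T, hTC, hTc, hT⟩ := exists_top C' (fun c => E a (g c)) (p * p) hcard
    obtain ⟨S, hST, hSc, hS⟩ := exists_sparse T p hTc
    have hSC' : S ⊆ C' := hST.trans hTC
    have hSC : S ⊆ C := hSC'.trans hC'
    -- the node over S
    have hnode : F n ((gam (j - 1) r / n (j - 1)) • ∑ c ∈ S, g c)
        (insert (j - 1) (S.biUnion A')) := by
      refine F.node (j - 1) r S g A' hj1 (by rw [hSc]) (fun c hc => (hg c (hSC' hc)).1) ?_ ?_ ?_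
      · intro c hc c' hc' hcc k hk k' hk'
        obtain ⟨hkK, hm⟩ := (hg c (hSC' hc)).2.2 k hk
        obtain ⟨hkK', hm'⟩ := (hg c' (hSC' hc')).2.2 k' hk'
        have hle : k ≤ k' := meets_mono hws hs (hSC hc) (hSC hc') hcc hm hm'
        refine lt_of_le_of_ne hle ?_
        rintro rfl
        have h1 := hK k hkK
        have h2 := hS c hc c' hc' hcc
        have h3 : (T.filter fun t => c ≤ t ∧ t ≤ c') ⊆ hull w f C k := by
          intro t ht
          rw [Finset.mem_filter] at ht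
          exact mem_hull.mpr ⟨hC' (hTC ht.1), ⟨c, hSC hc, ht.2.1, hm⟩, ⟨c', hSC hc', ht.2.2, hm'⟩⟩
        exact absurd (h2.trans (Finset.card_le_card h3)) (not_le.mpr h1)
      · intro c hc x hx
        have h1 := (hg c (hSC' hc)).2.1 x hx
        have h2 := hA c (hSC hc) (x + 1) h1
        omega
      · intro m hm
        apply hr m
        obtain ⟨c, x, h1, h2⟩ := hm
        refine ⟨c, fun i => x i + 1, fun i hi => ⟨hSC (h1 i hi).1, ?_⟩, fun i hi => ⟨(h2 i hi).1, ?_⟩⟩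
        · exact (hg (c i) (hSC' (h1 i hi).1)).2.1 (x i) (h1 i hi).2
        · have := (h2 i hi).2
          show x i + 1 < 2 * (x (i + 1) + 1)
          omega
    have hadm : Adm n w ((gam j r / n j) • ∑ c ∈ C, f c) (insert j (C.biUnion A)) K
        ((gam (j - 1) r / n (j - 1)) • ∑ c ∈ S, g c) (insert (j - 1) (S.biUnion A')) := by
      refine ⟨hnode, fun x hx => ?_, fun k hk => ?_⟩
      · rw [Finset.mem_insert, Finset.mem_biUnion] at hx
        rcases hx with rfl | ⟨c, hc, hx⟩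
        · rw [show j - 1 + 1 = j by omega]; exact Finset.mem_insert_self _ _
        · exact (hchild c (hSC' hc)).2.1 x hx
      · have hk' := support_node_subset _ _ _ hk
        rw [Finset.mem_biUnion] at hk'
        obtain ⟨c, hc, hkc⟩ := hk'
        exact (hchild c (hSC' hc)).2.2 k hkc
    obtain ⟨G, AG, hG, hG1, hG2⟩ := adm_max a (hchild c0 hc0) hadm
    refine ⟨G, AG, hG, ?_⟩
    have hY : E a ((gam (j - 1) r / n (j - 1)) • ∑ c ∈ S, g c) =
        (gam (j - 1) r / p) * ∑ c ∈ S, E a (g c) := E_node n a (j - 1) r S g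
    rw [hY] at hG2
    have hg0 := gam_nonneg (j - 1) r
    have hg1 := gam_ratio_pred j r hj2
    have hV := hv0 c0 hc0
    have hEG : 0 ≤ E a G := hV.trans hG1
    have hsm : ∀ y ∈ C' \ T, gam (j - 1) r * E a (g y) ≤ E a G := by
      intro y hy
      have h1 : (p : ℝ) * E a (g y) ≤ ∑ c ∈ S, E a (g c) := by
        calc (p : ℝ) * E a (g y) = ∑ c ∈ S, E a (g y) := by
              rw [Finset.sum_const, nsmul_eq_mul, hSc]
          _ ≤ _ := Finset.sum_le_sum fun c hc => hT c (hST hc) y hy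
      have h2 : gam (j - 1) r * ((p : ℝ) * E a (g y)) ≤ gam (j - 1) r * ∑ c ∈ S, E a (g c) :=
        mul_le_mul_of_nonneg_left h1 hg0
      have h3 : gam (j - 1) r * E a (g y) ≤ (gam (j - 1) r / p) * ∑ c ∈ S, E a (g c) := by
        rw [div_mul_eq_mul_div, le_div_iff₀ hp0']
        linarith
      exact h3.trans hG2
    have hsum2 : gam (j - 1) r * ∑ c ∈ C' \ T, E a (g c) ≤ (C'.card : ℝ) * E a G := by
      rw [Finset.mul_sum]
      calc ∑ c ∈ C' \ T, gam (j - 1) r * E a (g c) ≤ ∑ c ∈ C' \ T, E a G :=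
            Finset.sum_le_sum hsm
        _ = ((C' \ T).card : ℝ) * E a G := by rw [Finset.sum_const, nsmul_eq_mul]
        _ ≤ (C'.card : ℝ) * E a G := by
            apply mul_le_mul_of_nonneg_right _ hEG
            exact_mod_cast Finset.card_le_card Finset.sdiff_subset
    have hsum1 : ∑ c ∈ T, E a (g c) ≤ (p : ℝ) ^ 2 * E a G := by
      have h1 := hsumT T hTC
      rw [hTc] at h1
      push_cast at h1
      calc ∑ c ∈ T, E a (g c) ≤ (p : ℝ) * p * E a (g c0) := h1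
        _ = (p : ℝ) ^ 2 * E a (g c0) := by ring
        _ ≤ _ := mul_le_mul_of_nonneg_left hG1 (by positivity)
    have hT0 : 0 ≤ ∑ c ∈ T, E a (g c) := Finset.sum_nonneg fun c hc => hv0 c (hTC hc)
    have hD0 : 0 ≤ ∑ c ∈ C' \ T, E a (g c) :=
      Finset.sum_nonneg fun c hc => hv0 c (Finset.sdiff_subset hc)
    rw [← Finset.sum_sdiff hTC, mul_add]
    calc gam j r * ∑ c ∈ C' \ T, E a (g c) + gam j r * ∑ c ∈ T, E a (g c)
        ≤ (((j : ℝ) / ((j : ℝ) - 1)) ^ 2 * gam (j - 1) r) * ∑ c ∈ C' \ T, E a (g c) +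
          j * ((p : ℝ) ^ 2 * E a G) := by
          apply add_le_add
          · exact mul_le_mul_of_nonneg_right hg1 hD0
          · exact mul_le_mul (gam_le _ _) hsum1 hT0 hjr
      _ = ((j : ℝ) / ((j : ℝ) - 1)) ^ 2 * (gam (j - 1) r * ∑ c ∈ C' \ T, E a (g c)) +
          j * ((p : ℝ) ^ 2 * E a G) := by ring
      _ ≤ ((j : ℝ) / ((j : ℝ) - 1)) ^ 2 * ((C'.card : ℝ) * E a G) + j * ((p : ℝ) ^ 2 * E a G) := by
          gcongr
      _ = _ := by ring

include hn hw0 hws hw1 ha hj2 hC hF hs hA hr in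
/-- the induction step for nodes with index at least two -/
lemma node_upper
    (IH : ∀ c ∈ C, ∀ K : Finset ℕ, ∃ g A', Adm n w (f c) (A c) K g A' ∧
      E (fun i => ∑ k ∈ K, a k * w k i) (f c) ≤ Real.exp (12 / ((2 * j : ℕ) : ℝ)) * E a g)
    {m : ℕ} (hm : 1 ≤ m) (hmj : m ≤ j) (K : Finset ℕ) :
    ∃ g A', Adm n w ((gam j r / n j) • ∑ c ∈ C, f c) (insert j (C.biUnion A)) K g A' ∧
      E (fun i => ∑ k ∈ K, a k * w k i) ((gam j r / n j) • ∑ c ∈ C, f c) ≤
        Real.exp (12 / m) * E a g := by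
  classical
  set p := n (j - 1) with hp
  have hj1 : 1 ≤ j - 1 := by omega
  have hj0 : 1 ≤ j := by omega
  have hnj : (0 : ℝ) < n j := by exact_mod_cast hn.pos hj0
  have hplin := hn.lin (j - 1) hj1
  rw [← hp] at hplin
  have hp2 : (0 : ℝ) < (p : ℝ) - 2 := by
    have : (2 : ℝ) < p := by exact_mod_cast (by omega : 2 < p)
    linarith
  set ρ : ℝ := ((j : ℝ) / ((j : ℝ) - 1)) ^ 2 with hρdef
  have hρ1 : 1 ≤ ρ := by
    have hj' : (2 : ℝ) ≤ j := by exact_mod_cast hj2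
    have : 1 ≤ (j : ℝ) / ((j : ℝ) - 1) := by
      rw [le_div_iff₀ (by linarith)]; linarith
    rw [hρdef]
    exact one_le_pow₀ this
  set κ : ℝ := Real.exp (12 / ((2 * j : ℕ) : ℝ)) with hκdef
  have hκ1 : 1 ≤ κ := Real.one_le_exp (by positivity)
  set B := K.filter fun k => p ≤ (hull w f C k).card with hB
  set K' := K.filter fun k => ¬ p ≤ (hull w f C k).card with hK'
  set Q := B.biUnion fun k => inner w f C k with hQ
  set C' := C \ Q with hC'
  have hQC : Q ⊆ C := by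
    intro c hc
    rw [hQ, Finset.mem_biUnion] at hc
    obtain ⟨k, _, hk⟩ := hc
    exact inner_subset k hk
  have hcardQ : Q.card = ∑ k ∈ B, (inner w f C k).card := by
    rw [hQ]
    exact Finset.card_biUnion fun k _ k' _ hkk => inner_disjoint hws hs hkk
  have hcardC : C'.card + Q.card ≤ n j := by
    rw [hC', Finset.card_sdiff_add_card_eq_card hQC]; exact hC
  have hsumB : ∑ k ∈ B, (hull w f C k).card ≤ Q.card + 2 * B.card := by
    rw [hcardQ]
    calc ∑ k ∈ B, (hull w f C k).card ≤ ∑ k ∈ B, ((inner w f C k).card + 2) :=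
          Finset.sum_le_sum fun k _ => hull_card_le k
      _ = _ := by rw [Finset.sum_add_distrib, Finset.sum_const, smul_eq_mul, mul_comm]
  have hBq : B.card * p ≤ Q.card + 2 * B.card := by
    refine le_trans ?_ hsumB
    calc B.card * p = ∑ k ∈ B, p := by rw [Finset.sum_const, smul_eq_mul]
      _ ≤ _ := Finset.sum_le_sum fun k hk => (Finset.mem_filter.mp hk).2
  -- the thin part
  choose! g A' hgadm hgE using fun c (hc : c ∈ C) => IH c hc K'
  obtain ⟨G1, AG1, hG1, hG1E⟩ := thin_part hn w hws a ha hj2 hs hA hr K' C' Finset.sdiff_subset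
    (fun k hk => not_le.mp (Finset.mem_filter.mp hk).2) g A'
    (fun c hc => hgadm c (Finset.sdiff_subset hc))
  have hG1' : Adm n w ((gam j r / n j) • ∑ c ∈ C, f c) (insert j (C.biUnion A)) K G1 AG1 :=
    ⟨hG1.1, hG1.2.1, fun k hk => ⟨(Finset.mem_filter.mp (hG1.2.2 k hk).1).1, (hG1.2.2 k hk).2⟩⟩
  -- the big blocks
  obtain ⟨G, AG, hG, hGX, hGE⟩ : ∃ G AG,
      Adm n w ((gam j r / n j) • ∑ c ∈ C, f c) (insert j (C.biUnion A)) K G AG ∧
      (∀ k ∈ B, a k ≤ E a G) ∧ E a G1 ≤ E a G := by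
    rcases Finset.eq_empty_or_nonempty B with he | hne
    · exact ⟨G1, AG1, hG1', by rw [he]; simp, le_refl _⟩
    · obtain ⟨k0, hk0, hmax⟩ := Finset.exists_max_image B a hne
      have hadm : Adm n w ((gam j r / n j) • ∑ c ∈ C, f c) (insert j (C.biUnion A)) K
          (Finsupp.single k0 1) ∅ := by
        refine ⟨F.leaf k0, by simp, fun k hk => ?_⟩
        have hkk : k = k0 := by
          have := Finsupp.support_single_subset hk
          simpa using this
        subst hkk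
        have hB2 := Finset.mem_filter.mp hk0
        refine ⟨hB2.1, ?_⟩
        have hpos : 0 < (hull w f C k).card := by omega
        obtain ⟨c, hc⟩ := Finset.card_pos.mp hpos
        obtain ⟨_, ⟨c1, hc1, _, i, hi, hwi⟩, _⟩ := mem_hull.mp hc
        exact ⟨i, mem_support_node hn hj0 hs hc1 hi, hwi⟩
      obtain ⟨G, AG, hG, h1, h2⟩ := adm_max a hadm hG1'
      refine ⟨G, AG, hG, fun k hk => (hmax k hk).trans ?_, h2⟩
      simpa using h1
  refine ⟨G, AG, hG, ?_⟩
  set Z := E a G with hZ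
  have hZ0 : 0 ≤ Z := hG.1.E_nonneg ha
  -- decomposition
  have hsplit : E (fun i => ∑ k ∈ K, a k * w k i) ((gam j r / n j) • ∑ c ∈ C, f c) =
      ∑ k ∈ B, a k * E (w k) ((gam j r / n j) • ∑ c ∈ C, f c) +
      E (fun i => ∑ k ∈ K', a k * w k i) ((gam j r / n j) • ∑ c ∈ C, f c) := by
    rw [E_sum_w, E_sum_w, hB, hK', Finset.sum_filter_add_sum_filter_not]
  have hbig : ∑ k ∈ B, a k * E (w k) ((gam j r / n j) • ∑ c ∈ C, f c) ≤
      ρ * Z * (Q.card + 2 * B.card) / n j := by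
    calc ∑ k ∈ B, a k * E (w k) ((gam j r / n j) • ∑ c ∈ C, f c)
        ≤ ∑ k ∈ B, Z * (ρ * (hull w f C k).card / n j) := by
          apply Finset.sum_le_sum
          intro k hk
          have h1 := big_block hn w hw0 hw1 hj2 hF hs hA hr k (Finset.mem_filter.mp hk).2
          have h2 : 0 ≤ ρ * (hull w f C k).card / n j := by positivity
          calc a k * E (w k) ((gam j r / n j) • ∑ c ∈ C, f c)
              ≤ a k * (ρ * (hull w f C k).card / n j) := mul_le_mul_of_nonneg_left h1 (ha k)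
            _ ≤ Z * (ρ * (hull w f C k).card / n j) :=
                mul_le_mul_of_nonneg_right (hGX k hk) h2
      _ = ρ * Z * (∑ k ∈ B, ((hull w f C k).card : ℝ)) / n j := by
          rw [Finset.mul_sum, Finset.sum_div]
          exact Finset.sum_congr rfl fun k _ => by ring
      _ ≤ ρ * Z * (Q.card + 2 * B.card) / n j := by
          have h3 : (∑ k ∈ B, ((hull w f C k).card : ℝ)) ≤ Q.card + 2 * B.card := by
            exact_mod_cast hsumB
          gcongr
  have hthin : E (fun i => ∑ k ∈ K', a k * w k i) ((gam j r / n j) • ∑ c ∈ C, f c) ≤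
      κ * ((j : ℝ) * (p : ℝ) ^ 2 + ρ * C'.card) * Z / n j := by
    rw [E_node]
    have h1 : ∑ c ∈ C, E (fun i => ∑ k ∈ K', a k * w k i) (f c) =
        ∑ c ∈ C', E (fun i => ∑ k ∈ K', a k * w k i) (f c) := by
      symm
      apply Finset.sum_subset Finset.sdiff_subset
      intro c hc hc'
      have hcQ : c ∈ Q := by
        by_contra h
        exact hc' (Finset.mem_sdiff.mpr ⟨hc, h⟩)
      rw [hQ, Finset.mem_biUnion] at hcQ
      obtain ⟨k0, hk0, hck0⟩ := hcQ
      rw [E_sum_w]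
      apply Finset.sum_eq_zero
      intro k hk
      rw [E_eq_zero_of_not_meets, mul_zero]
      intro hm'
      have := inner_meets hws hs hck0 hm'
      subst this
      exact (Finset.mem_filter.mp hk).2 (Finset.mem_filter.mp hk0).2
    rw [h1]
    have h2 : ∑ c ∈ C', E (fun i => ∑ k ∈ K', a k * w k i) (f c) ≤ κ * ∑ c ∈ C', E a (g c) := by
      rw [Finset.mul_sum]
      exact Finset.sum_le_sum fun c hc => hgE c (Finset.sdiff_subset hc)
    have h3 : gam j r * ∑ c ∈ C', E a (g c) ≤ ((j : ℝ) * (p : ℝ) ^ 2 + ρ * C'.card) * Z := by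
      refine hG1E.trans ?_
      apply mul_le_mul_of_nonneg_left hGE
      positivity
    calc gam j r / n j * ∑ c ∈ C', E (fun i => ∑ k ∈ K', a k * w k i) (f c)
        ≤ gam j r / n j * (κ * ∑ c ∈ C', E a (g c)) :=
          mul_le_mul_of_nonneg_left h2 (coef_nonneg _ _)
      _ = κ * (gam j r * ∑ c ∈ C', E a (g c)) / n j := by ring
      _ ≤ κ * (((j : ℝ) * (p : ℝ) ^ 2 + ρ * C'.card) * Z) / n j := by
          gcongr
      _ = _ := by ring
  rw [hsplit]
  have hq : (Q.card : ℝ) ≤ n j := by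
    have : Q.card ≤ n j := by omega
    exact_mod_cast this
  have hcc : (C'.card : ℝ) + Q.card ≤ n j := by exact_mod_cast hcardC
  have hBq' : (B.card : ℝ) * ((p : ℝ) - 2) ≤ Q.card := by
    have : (B.card : ℝ) * p ≤ Q.card + 2 * B.card := by exact_mod_cast hBq
    linarith
  have hb : 2 * (B.card : ℝ) ≤ 2 / ((p : ℝ) - 2) * n j := by
    rw [div_mul_eq_mul_div, le_div_iff₀ hp2]
    nlinarith
  have hnum := numeric hj2 hn hm hmj
  rw [← hp, ← hκdef, ← hρdef] at hnum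
  have hκρ : 0 ≤ κ * ρ := by positivity
  calc ∑ k ∈ B, a k * E (w k) ((gam j r / n j) • ∑ c ∈ C, f c) +
        E (fun i => ∑ k ∈ K', a k * w k i) ((gam j r / n j) • ∑ c ∈ C, f c)
      ≤ ρ * Z * (Q.card + 2 * B.card) / n j +
        κ * ((j : ℝ) * (p : ℝ) ^ 2 + ρ * C'.card) * Z / n j := add_le_add hbig hthin
    _ ≤ κ * ρ * (1 + 2 / ((p : ℝ) - 2) + j * (p : ℝ) ^ 2 / n j) * Z := by
        rw [← add_div, div_le_iff₀ hnj]
        have e1 : κ * ρ * (1 + 2 / ((p : ℝ) - 2) + j * (p : ℝ) ^ 2 / n j) * Z * n j =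
            κ * ρ * Z * (n j + 2 / ((p : ℝ) - 2) * n j + j * (p : ℝ) ^ 2) := by
          field_simp
        rw [e1]
        have e2 : ρ * Z * (Q.card + 2 * B.card) ≤ κ * ρ * Z * (Q.card + 2 * B.card) := by
          have : 0 ≤ ρ * Z * (Q.card + 2 * B.card) := by positivity
          nlinarith
        have e3 : κ * ((j : ℝ) * (p : ℝ) ^ 2 + ρ * C'.card) * Z ≤
            κ * ρ * Z * ((j : ℝ) * (p : ℝ) ^ 2 + C'.card) := by
          have h5 : (j : ℝ) * (p : ℝ) ^ 2 ≤ ρ * ((j : ℝ) * (p : ℝ) ^ 2) :=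
            le_mul_of_one_le_left (by positivity) hρ1
          have h6 : κ * Z * ((j : ℝ) * (p : ℝ) ^ 2 + ρ * C'.card) ≤
              κ * Z * (ρ * ((j : ℝ) * (p : ℝ) ^ 2) + ρ * C'.card) := by
            gcongr
          calc _ = κ * Z * ((j : ℝ) * (p : ℝ) ^ 2 + ρ * C'.card) := by ring
            _ ≤ _ := h6
            _ = _ := by ring
        calc ρ * Z * (Q.card + 2 * B.card) + κ * ((j : ℝ) * (p : ℝ) ^ 2 + ρ * C'.card) * Z
            ≤ κ * ρ * Z * (Q.card + 2 * B.card) +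
              κ * ρ * Z * ((j : ℝ) * (p : ℝ) ^ 2 + C'.card) := add_le_add e2 e3
          _ = κ * ρ * Z * ((C'.card + Q.card) + 2 * B.card + (j : ℝ) * (p : ℝ) ^ 2) := by ring
          _ ≤ κ * ρ * Z * (n j + 2 / ((p : ℝ) - 2) * n j + j * (p : ℝ) ^ 2) := by
              gcongr
    _ ≤ Real.exp (12 / m) * Z := mul_le_mul_of_nonneg_right hnum hZ0

end node

/-- **Upper lemma.** -/
theorem upper (hn : Params n) (w : ℕ → ℕ → ℝ) (hw0 : ∀ k i, 0 ≤ w k i)
    (hws : ∀ k k', k < k' → ∀ i i', w k i ≠ 0 → w k' i' ≠ 0 → i < i')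
    (hw1 : ∀ k f A, F n f A → E (w k) f ≤ 1)
    (a : ℕ → ℝ) (ha : ∀ k, 0 ≤ a k) {f : ℕ →₀ ℝ} {A : Finset ℕ} (hf : F n f A) :
    ∀ m : ℕ, 1 ≤ m → (∀ x ∈ A, m ≤ x) → ∀ K : Finset ℕ,
      ∃ g A', F n g A' ∧ (∀ x ∈ A', x + 1 ∈ A) ∧
        (∀ k ∈ g.support, k ∈ K ∧ ∃ i ∈ f.support, w k i ≠ 0) ∧
        E (fun i => ∑ k ∈ K, a k * w k i) f ≤ Real.exp (12 / m) * E a g := by
  suffices h : ∀ m : ℕ, 1 ≤ m → (∀ x ∈ A, m ≤ x) → ∀ K : Finset ℕ,
      ∃ g A', Adm n w f A K g A' ∧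
        E (fun i => ∑ k ∈ K, a k * w k i) f ≤ Real.exp (12 / m) * E a g by
    intro m hm hA K
    obtain ⟨g, A', h1, h2⟩ := h m hm hA K
    exact ⟨g, A', h1.1, h1.2.1, h1.2.2, h2⟩
  induction hf with
  | zero =>
    intro m _ _ K
    exact ⟨0, ∅, adm_zero _ _ _ _, by simp⟩
  | leaf i =>
    intro m _ _ K
    rw [E_single, one_mul]
    have hexp : 1 ≤ Real.exp (12 / (m : ℝ)) := Real.one_le_exp (by positivity)
    by_cases hex : ∃ k ∈ K, w k i ≠ 0
    · obtain ⟨k, hk, hwk⟩ := hex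
      refine ⟨Finsupp.single k 1, ∅, ⟨F.leaf k, by simp, fun k' hk' => ?_⟩, ?_⟩
      · have hkk : k' = k := by simpa using Finsupp.support_single_subset hk'
        subst hkk
        refine ⟨hk, i, ?_, hwk⟩
        rw [Finsupp.mem_support_iff, Finsupp.single_eq_same]; exact one_ne_zero
      · rw [E_single, one_mul, Finset.sum_eq_single_of_mem k hk]
        · have h1 := hw1 k _ _ (F.leaf (n := n) i)
          rw [E_single, one_mul] at h1
          have h2 := ha k
          have h3 := hw0 k i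
          nlinarith
        · intro k' hk' hne
          by_contra h0
          have h0' : w k' i ≠ 0 := fun h => h0 (by rw [h, mul_zero])
          rcases lt_or_gt_of_ne hne with hlt | hlt
          · exact lt_irrefl _ (hws k' k hlt i i h0' hwk)
          · exact lt_irrefl _ (hws k k' hlt i i hwk h0')
    · push Not at hex
      refine ⟨0, ∅, adm_zero _ _ _ _, ?_⟩
      rw [Finset.sum_eq_zero]
      · simp
      · intro k hk; rw [hex k hk, mul_zero]
  | node j r C f A hj hC hF hs hA hr ih =>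
    intro m hm hmA K
    have hmj : m ≤ j := hmA j (Finset.mem_insert_self _ _)
    rcases Nat.lt_or_ge j 2 with hj2 | hj2
    · -- index one: take the best child
      have hj1 : j = 1 := by omega
      subst hj1
      set W : ℕ → ℝ := fun i => ∑ k ∈ K, a k * w k i with hW
      have hW0 : ∀ i, 0 ≤ W i := fun i =>
        Finset.sum_nonneg fun k _ => mul_nonneg (ha k) (hw0 k i)
      rcases Finset.eq_empty_or_nonempty C with he | hne
      · subst he
        exact ⟨0, ∅, adm_zero _ _ _ _, by simp⟩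
      · obtain ⟨c, hc, hmax⟩ := Finset.exists_max_image C (fun c => E W (f c)) hne
        obtain ⟨g, A', ⟨h1, h2, h3⟩, h4⟩ := ih c hc m hm
          (fun x hx => hmA x (Finset.mem_insert_of_mem (Finset.mem_biUnion.mpr ⟨c, hc, hx⟩))) K
        refine ⟨g, A', ⟨h1, fun x hx => ?_, fun k hk => ?_⟩, ?_⟩
        · exact Finset.mem_insert_of_mem (Finset.mem_biUnion.mpr ⟨c, hc, h2 x hx⟩)
        · obtain ⟨hkK, i, hi, hwi⟩ := h3 k hk
          exact ⟨hkK, i, mem_support_node hn hj hs hc hi, hwi⟩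
        · refine le_trans ?_ h4
          rw [E_node]
          have hn1 : (0 : ℝ) < n 1 := by exact_mod_cast hn.pos (le_refl 1)
          have hE0 : 0 ≤ E W (f c) := (hF c hc).E_nonneg hW0
          have hsum : ∑ c ∈ C, E W (f c) ≤ n 1 * E W (f c) := by
            calc ∑ c' ∈ C, E W (f c') ≤ ∑ c' ∈ C, E W (f c) := Finset.sum_le_sum hmax
              _ = C.card * E W (f c) := by rw [Finset.sum_const, nsmul_eq_mul]
              _ ≤ n 1 * E W (f c) := by
                  apply mul_le_mul_of_nonneg_right _ hE0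
                  exact_mod_cast hC
          calc gam 1 r / n 1 * ∑ c ∈ C, E W (f c) ≤ gam 1 r / n 1 * (n 1 * E W (f c)) :=
                mul_le_mul_of_nonneg_left hsum (coef_nonneg _ _)
            _ = gam 1 r * E W (f c) := by field_simp
            _ ≤ 1 * E W (f c) := by
                apply mul_le_mul_of_nonneg_right _ hE0
                simpa using gam_le 1 r
            _ = E W (f c) := one_mul _
    · exact node_upper hn w hw0 hws hw1 a ha hj2 hC hF hs hA hr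
        (fun c hc K' => ih c hc (2 * j) (by omega) (hA c hc) K') hm hmj K

end Pool.Agent.Ros
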