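import Pool.Agent.Helper80.Ros.Restrict
import Pool.Agent.Helper80.Ros.Escape
import Pool.Agent.Helper80.Ros.Compose
import Pool.Agent.Helper80.Ros.Upper

/-!
# The estimates at the level of norms
-/

namespace Pool.Agent.Ros

open Finset

variable {n : ℕ → ℕ}

/-- the combination `∑ a_k v_k` -/
noncomputable def comb (v : ℕ → ℕ →₀ ℝ) (a : ℕ →₀ ℝ) : ℕ →₀ ℝ := ∑ k ∈ a.support, a k • v k

lemma comb_apply (v : ℕ → ℕ →₀ ℝ) (a : ℕ →₀ ℝ) (i : ℕ) :
    comb v a i = ∑ k ∈ a.support, a k * v k i := by
  simp [comb, Finsupp.finsetSum_apply]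

lemma Succ.unique {v : ℕ → ℕ →₀ ℝ} (hs : Succ v) {k k' i : ℕ} (h : v k i ≠ 0) (h' : v k' i ≠ 0) :
    k = k' := by
  rcases lt_trichotomy k k' with hlt | he | hlt
  · exact absurd (hs k k' hlt i (Finsupp.mem_support_iff.mpr h) i (Finsupp.mem_support_iff.mpr h'))
      (lt_irrefl _)
  · exact he
  · exact absurd (hs k' k hlt i (Finsupp.mem_support_iff.mpr h') i (Finsupp.mem_support_iff.mpr h))
      (lt_irrefl _)

/-- value of the combination on the support of one block -/
lemma comb_apply_eq {v : ℕ → ℕ →₀ ℝ} (hs : Succ v) (a : ℕ →₀ ℝ) {k i : ℕ} (h : v k i ≠ 0) :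
    comb v a i = a k * v k i := by
  rw [comb_apply]
  by_cases hk : k ∈ a.support
  · apply Finset.sum_eq_single_of_mem k hk
    intro k' _ hne
    have : v k' i = 0 := by
      by_contra h0
      exact hne (hs.unique h0 h)
    rw [this, mul_zero]
  · rw [Finsupp.notMem_support_iff.mp hk, zero_mul]
    apply Finset.sum_eq_zero
    intro k' hk'
    have : v k' i = 0 := by
      by_contra h0
      have := hs.unique h0 h
      exact hk (this ▸ hk')
    rw [this, mul_zero]

lemma abs_comb {v : ℕ → ℕ →₀ ℝ} (hs : Succ v) (a : ℕ →₀ ℝ) (i : ℕ) :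
    |comb v a i| = ∑ k ∈ a.support, |a k| * |v k i| := by
  by_cases hex : ∃ k ∈ a.support, v k i ≠ 0
  · obtain ⟨k, hk, hv⟩ := hex
    rw [comb_apply_eq hs a hv, abs_mul]
    symm
    apply Finset.sum_eq_single_of_mem k hk
    intro k' _ hne
    have : v k' i = 0 := by
      by_contra h0
      exact hne (hs.unique h0 hv)
    rw [this, abs_zero, mul_zero]
  · push Not at hex
    rw [comb_apply, Finset.sum_eq_zero, abs_zero, Finset.sum_eq_zero]
    · intro k hk; rw [hex k hk, abs_zero, mul_zero]
    · intro k hk; rw [hex k hk, mul_zero]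

/-- **Upper estimate**: every normalized block sequence is dominated by the basis. -/
theorem norm_upper (hn : Params n) {v : ℕ → ℕ →₀ ℝ} (hs : Succ v) (hv : ∀ k, N n (v k) ≤ 1)
    (a : ℕ →₀ ℝ) : N n (comb v a) ≤ Real.exp 12 * N n a := by
  apply N_le
  intro f A hf
  obtain ⟨g, A', hg, _, _, hE⟩ := upper hn (fun k i => |v k i|) (fun k i => abs_nonneg _)
    (fun k k' hkk i i' hi hi' => hs k k' hkk i (Finsupp.mem_support_iff.mpr (abs_ne_zero.mp hi))
      i' (Finsupp.mem_support_iff.mpr (abs_ne_zero.mp hi')))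
    (fun k f A hf => (le_N hn hf (v k)).trans (hv k)) (fun k => |a k|) (fun k => abs_nonneg _)
    hf 1 (le_refl 1) hf.one_le a.support
  have h1 : (fun i => |comb v a i|) = fun i => ∑ k ∈ a.support, |a k| * |v k i| := by
    funext i; exact abs_comb hs a i
  rw [h1]
  refine hE.trans ?_
  have h2 : (12 : ℝ) / ((1 : ℕ) : ℝ) = 12 := by norm_num
  rw [h2]
  exact mul_le_mul_of_nonneg_left (le_N hn hg a) (Real.exp_nonneg _)

/-- lower estimate if the sup norms do not tend to zero -/
lemma norm_lower_leaf (hn : Params n) {v : ℕ → ℕ →₀ ℝ} (hs : Succ v) {η : ℝ} (hη : 0 < η)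
    (i : ℕ → ℕ) (hi : ∀ k, η ≤ |v k (i k)|) (a : ℕ →₀ ℝ) :
    η * N n a ≤ N n (comb v a) := by
  have hne : ∀ k, v k (i k) ≠ 0 := fun k h => by
    have := hi k
    rw [h, abs_zero] at this
    linarith
  have hmono : StrictMono i := fun k k' hkk =>
    hs k k' hkk (i k) (Finsupp.mem_support_iff.mpr (hne k)) (i k') (Finsupp.mem_support_iff.mpr (hne k'))
  rw [← le_div_iff₀' hη]
  apply N_le
  intro g A hg
  rw [le_div_iff₀' hη]
  have h1 := le_N hn (hg.relabel hmono) (comb v a)
  rw [E_mapDomain] at h1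
  refine le_trans ?_ h1
  rw [← E_smul_w]
  apply E_mono hg.nonneg
  intro k _
  show η * |a k| ≤ |comb v a (i k)|
  rw [comb_apply_eq hs a (hne k), abs_mul, mul_comm]
  exact mul_le_mul_of_nonneg_left (hi k) (abs_nonneg _)

/-- lower estimate for sequences with widely separated norming functionals -/
lemma norm_lower_sep (hn : Params n) {v : ℕ → ℕ →₀ ℝ} (hs : Succ v) {η : ℝ} (hη : 0 < η)
    (h : ℕ → ℕ →₀ ℝ) (B : ℕ → Finset ℕ) (hF : ∀ k, F n (h k) (B k))
    (hsub : ∀ k, (h k).support ⊆ (v k).support)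
    (hval : ∀ k, η ≤ E (fun i => |v k i|) (h k)) (hB : ∀ k, (B k).Nonempty)
    (hgap : ∀ k k', k < k' → ∀ x ∈ B k, ∀ y ∈ B k', 2 * x ≤ y)
    (hbig : ∀ k, ∀ x ∈ B k, 2 * k + 4 ≤ x) (a : ℕ →₀ ℝ) :
    η / (2 * Real.exp 2) * N n a ≤ N n (comb v a) := by
  have hexp : 0 < Real.exp 2 := Real.exp_pos 2
  -- the error terms
  have hε : ∀ k i, 1 ≤ i → (∃ x ∈ B k, x < 2 * i) → (i : ℝ) / n i ≤ (1 / 2) ^ k * (1 / 8) := by
    rintro k i hi ⟨x, hx, hxi⟩
    have h1 := hbig k x hx
    have h2 : k + 3 ≤ i := by omega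
    have h3 := hn.exp i hi
    have h4 : (0 : ℝ) < i := by exact_mod_cast hi
    have h5 : (i : ℝ) * 2 ^ i ≤ n i := by exact_mod_cast h3
    have h6 : (0 : ℝ) < n i := by exact_mod_cast hn.pos hi
    calc (i : ℝ) / n i ≤ i / (i * 2 ^ i) := by
          apply div_le_div_of_nonneg_left h4.le (by positivity) h5
      _ = (1 / 2) ^ i := by
          rw [div_mul_eq_div_div, div_self h4.ne', one_div_pow]
      _ ≤ (1 / 2) ^ (k + 3) := by
          apply pow_le_pow_of_le_one (by norm_num) (by norm_num) h2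
      _ = _ := by rw [pow_add]; norm_num
  have hsucc : ∀ k k', k < k' → ∀ i ∈ (h k).support, ∀ i' ∈ (h k').support, i < i' :=
    fun k k' hkk i hi i' hi' => hs k k' hkk i (hsub k hi) i' (hsub k' hi')
  have hNa := N_nonneg hn a
  have key : N n a ≤ Real.exp 2 / η * N n (comb v a) + 1 / 4 * N n a := by
    apply N_le
    intro g A hg
    obtain ⟨c, A', hc0, hcs, hgc, hFc, _⟩ := compose hn h B hF hB hsucc hgap
      (fun k => (1 / 2) ^ k * (1 / 8)) (fun k => by positivity) hε hg 1 (le_refl 1) hg.one_le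
      g.support
    have h2 : (2 : ℝ) / ((1 : ℕ) : ℝ) = 2 := by norm_num
    rw [h2] at hgc
    -- value of the composed functional
    have hG : η * ∑ k ∈ g.support, c k * |a k| ≤ N n (comb v a) := by
      refine le_trans ?_ (le_N hn hFc (comb v a))
      have e1 : Finsupp.linearCombination ℝ h c = ∑ k ∈ g.support, c k • h k := by
        rw [Finsupp.linearCombination_apply]
        apply Finsupp.sum_of_support_subset _ (hcs.trans Finset.inter_subset_left)
        intro k _; exact zero_smul _ _
      rw [e1, map_sum, Finset.mul_sum]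
      apply Finset.sum_le_sum
      intro k _
      rw [map_smul, smul_eq_mul]
      have e2 : E (fun i => |comb v a i|) (h k) = |a k| * E (fun i => |v k i|) (h k) := by
        rw [← E_smul_w]
        apply E_congr
        intro i hi
        rw [comb_apply_eq hs a (Finsupp.mem_support_iff.mp (hsub k hi)), abs_mul]
      rw [e2]
      have h3 := hval k
      have h4 : 0 ≤ c k * |a k| := mul_nonneg (hc0 k) (abs_nonneg _)
      calc η * (c k * |a k|) ≤ E (fun i => |v k i|) (h k) * (c k * |a k|) :=
            mul_le_mul_of_nonneg_right h3 h4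
        _ = _ := by ring
    have hsum : ∑ k ∈ g.support, (1 / 2 : ℝ) ^ k * (1 / 8) * |a k| ≤ 1 / 4 * N n a := by
      calc ∑ k ∈ g.support, (1 / 2 : ℝ) ^ k * (1 / 8) * |a k|
          ≤ ∑ k ∈ g.support, (1 / 2 : ℝ) ^ k * (1 / 8 * N n a) := by
            apply Finset.sum_le_sum
            intro k _
            rw [mul_assoc]
            gcongr
            exact abs_le_N hn a k
        _ = (∑ k ∈ g.support, (1 / 2 : ℝ) ^ k) * (1 / 8 * N n a) := by rw [Finset.sum_mul]
        _ ≤ 2 * (1 / 8 * N n a) := by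
            apply mul_le_mul_of_nonneg_right _ (by positivity)
            calc ∑ k ∈ g.support, (1 / 2 : ℝ) ^ k ≤ ∑' k : ℕ, (1 / 2 : ℝ) ^ k :=
                  summable_geometric_two.sum_le_tsum _ (fun i _ => by positivity)
              _ = 2 := tsum_geometric_two
        _ = _ := by ring
    calc E (fun i => |a i|) g = ∑ k ∈ g.support, g k * |a k| := E_apply' _ _
      _ ≤ ∑ k ∈ g.support, (Real.exp 2 * c k + (1 / 2) ^ k * (1 / 8)) * |a k| :=
          Finset.sum_le_sum fun k hk => mul_le_mul_of_nonneg_right (hgc k hk) (abs_nonneg _)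
      _ = Real.exp 2 * ∑ k ∈ g.support, c k * |a k| +
          ∑ k ∈ g.support, (1 / 2 : ℝ) ^ k * (1 / 8) * |a k| := by
          rw [Finset.mul_sum, ← Finset.sum_add_distrib]
          exact Finset.sum_congr rfl fun k _ => by ring
      _ ≤ Real.exp 2 / η * N n (comb v a) + 1 / 4 * N n a := by
          apply add_le_add _ hsum
          rw [div_mul_eq_mul_div, le_div_iff₀ hη]
          calc (Real.exp 2 * ∑ k ∈ g.support, c k * |a k|) * η
              = Real.exp 2 * (η * ∑ k ∈ g.support, c k * |a k|) := by ring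
            _ ≤ _ := mul_le_mul_of_nonneg_left hG hexp.le
  have h5 : 3 / 4 * N n a ≤ Real.exp 2 / η * N n (comb v a) := by linarith
  have h6 : 3 / 4 * N n a * η ≤ Real.exp 2 * N n (comb v a) := by
    calc 3 / 4 * N n a * η ≤ Real.exp 2 / η * N n (comb v a) * η :=
          mul_le_mul_of_nonneg_right h5 hη.le
      _ = _ := by field_simp
  rw [div_mul_eq_mul_div, div_le_iff₀ (by positivity)]
  have h7 : 0 ≤ N n a * η := mul_nonneg hNa hη.le
  linarith

/-- **Lower estimate.** -/
theorem norm_lower (hn : Params n) {v : ℕ → ℕ →₀ ℝ} (hs : Succ v) (hv : ∀ k, N n (v k) = 1) :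
    ∃ φ : ℕ → ℕ, StrictMono φ ∧ ∃ δ : ℝ, 0 < δ ∧
      ∀ a : ℕ →₀ ℝ, δ * N n a ≤ N n (comb (v ∘ φ) a) := by
  classical
  obtain ⟨η, hη, hesc⟩ := escape hn (fun k i => |v k i|) (fun k i => abs_nonneg _)
    (fun k f A hf => (le_N hn hf (v k)).trans (hv k).le)
    (fun k => by
      obtain ⟨f, A, hf, h⟩ := exists_lt_of_lt_N (n := n) (x := v k) (c := 1 / 2)
        (by rw [hv k]; norm_num)
      exact ⟨f, A, hf, h.le⟩)
  have hsφ : ∀ φ : ℕ → ℕ, StrictMono φ → Succ (v ∘ φ) := fun φ hφ k k' hkk =>
    hs _ _ (hφ hkk)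
  by_cases hcase : ∃ᶠ k in Filter.atTop, ∃ i, η ≤ |v k i|
  · obtain ⟨φ, hφ, hφi⟩ := Filter.extraction_of_frequently_atTop hcase
    choose i hi using hφi
    exact ⟨φ, hφ, η, hη, norm_lower_leaf hn (hsφ φ hφ) hη i hi⟩
  · rw [Filter.not_frequently, Filter.eventually_atTop] at hcase
    obtain ⟨M0, hM0⟩ := hcase
    choose K hKM f A hf hval hA using hesc
    -- recursion on (b, M)
    let step : ℕ × ℕ → ℕ × ℕ := fun s =>
      (2 * (A s.1 s.2).sup id + s.1 + 2, K s.1 s.2 + 1)
    let st : ℕ → ℕ × ℕ := fun l => step^[l] (4, M0)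
    have hst : ∀ l, st (l + 1) = step (st l) := fun l => Function.iterate_succ_apply' step l _
    let b : ℕ → ℕ := fun l => (st l).1
    let M : ℕ → ℕ := fun l => (st l).2
    have hb0 : b 0 = 4 := rfl
    have hMM0 : M 0 = M0 := rfl
    have hb : ∀ l, b (l + 1) = 2 * (A (b l) (M l)).sup id + b l + 2 := fun l => by
      show (st (l + 1)).1 = _
      rw [hst l]
    have hM : ∀ l, M (l + 1) = K (b l) (M l) + 1 := fun l => by
      show (st (l + 1)).2 = _
      rw [hst l]
    have hblin : ∀ l, 2 * l + 4 ≤ b l := by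
      intro l
      induction l with
      | zero => rw [hb0]
      | succ l ih => rw [hb l]; omega
    have hbmono : ∀ l l', l < l' → 2 * (A (b l) (M l)).sup id ≤ b l' := by
      intro l l' hll
      induction l' with
      | zero => omega
      | succ l' ih =>
        rcases Nat.lt_succ_iff_lt_or_eq.mp hll with h1 | h1
        · have := ih h1
          rw [hb l']; omega
        · subst h1
          rw [hb l]; omega
    let φ : ℕ → ℕ := fun l => K (b l) (M l)
    have hφ : StrictMono φ := by
      apply strictMono_nat_of_lt_succ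
      intro l
      show K (b l) (M l) < K (b (l + 1)) (M (l + 1))
      have := hKM (b (l + 1)) (M (l + 1))
      have h2 := hM l
      omega
    have hφM0 : ∀ l, M0 ≤ φ l := by
      intro l
      have h1 : ∀ l, M0 ≤ M l := by
        intro l
        induction l with
        | zero => rw [hMM0]
        | succ l ih => rw [hM l]; have := hKM (b l) (M l); omega
      exact (h1 l).trans (hKM (b l) (M l))
    -- restricted functionals
    have hres : ∀ l, ∃ B ⊆ A (b l) (M l),
        F n ((f (b l) (M l)).filter (fun i => i ∈ (v (φ l)).support)) B :=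
      fun l => (hf (b l) (M l)).restrict _
    choose B hBA hFB using hres
    let h : ℕ → ℕ →₀ ℝ := fun l => (f (b l) (M l)).filter (fun i => i ∈ (v (φ l)).support)
    have hval' : ∀ l, η ≤ E (fun i => |v (φ l) i|) (h l) := by
      intro l
      have h1 := hval (b l) (M l)
      have h2 : E (fun i => |v (φ l) i|) (h l) = E (fun i => |v (φ l) i|) (f (b l) (M l)) := by
        rw [E_eq_sum_of_subset _ (h l) (S := (f (b l) (M l)).support)
          (by rw [Finsupp.support_filter]; exact Finset.filter_subset _ _), E_apply']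
        apply Finset.sum_congr rfl
        intro i _
        by_cases hi : i ∈ (v (φ l)).support
        · rw [Finsupp.filter_apply_pos _ _ hi]
        · rw [Finsupp.notMem_support_iff.mp hi]; simp
      rw [h2]; exact h1
    have hBne : ∀ l, (B l).Nonempty := by
      intro l
      by_contra hemp
      rw [Finset.not_nonempty_iff_eq_empty] at hemp
      have h1 := hval' l
      rcases (hFB l).of_empty hemp with h0 | ⟨k, hk⟩
      · have : h l = 0 := h0
        rw [this, map_zero] at h1
        linarith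
      · have : h l = Finsupp.single k 1 := hk
        rw [this, E_single, one_mul] at h1
        exact hM0 (φ l) (hφM0 l) ⟨k, h1⟩
    refine ⟨φ, hφ, η / (2 * Real.exp 2), by positivity, fun a => ?_⟩
    refine norm_lower_sep hn (hsφ φ hφ) hη h B hFB ?_ hval' hBne ?_ ?_ a
    · intro l i hi
      have hi' : i ∈ ((f (b l) (M l)).filter (fun i => i ∈ (v (φ l)).support)).support := hi
      rw [Finsupp.support_filter, Finset.mem_filter] at hi'
      exact hi'.2
    · intro l l' hll x hx y hy
      have h1 : x ≤ (A (b l) (M l)).sup id := Finset.le_sup (f := id) (hBA l hx)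
      have h2 := hA (b l') (M l') y (hBA l' hy)
      have h3 := hbmono l l' hll
      omega
    · intro l x hx
      have h1 := hA (b l) (M l) x (hBA l hx)
      have h2 := hblin l
      omega

end Pool.Agent.Ros
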