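import Pool.Agent.Helper80.Ros.Basic

/-!
# The growth of the norms of the sums of the first unit vectors
-/

namespace Pool.Agent.Ros
open Finset
variable {n : ℕ → ℕ}

/-- The sum of the first `m` unit vectors. -/
noncomputable def ones (m : ℕ) : ℕ →₀ ℝ := ∑ i ∈ range m, Finsupp.single i 1

lemma notLp_ones_apply (m i : ℕ) : ones m i = if i ∈ range m then 1 else 0 := by
  unfold ones
  rw [Finsupp.finsetSum_apply]
  by_cases h : i ∈ range m
  · rw [if_pos h, Finset.sum_eq_single_of_mem i h]
    · simp
    · intro b _ hb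
      simp [hb]
  · rw [if_neg h]
    apply Finset.sum_eq_zero
    intro b hb
    have : b ≠ i := fun he => h (he ▸ hb)
    simp [this]

theorem le_N_ones (hn : Params n) {j : ℕ} (hj : 1 ≤ j) : (j : ℝ) ≤ N n (ones (n j)) := by
  have hF : F n ((gam j 0 / n j) • ∑ c ∈ range (n j), Finsupp.single c 1)
      (insert j ((range (n j)).biUnion fun _ => ∅)) := by
    refine F.node j 0 (range (n j)) (fun c => Finsupp.single c 1) (fun _ => ∅) hj (by simp)
      (fun c _ => F.leaf c) ?_ (by simp) ?_
    · intro c _ c' _ hcc i hi i' hi'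
      have h1 := Finsupp.support_single_subset hi
      have h2 := Finsupp.support_single_subset hi'
      rw [Finset.mem_singleton] at h1 h2
      omega
    · intro m hm
      obtain ⟨c, x, h1, -⟩ := hm
      by_contra hc
      have := (h1 0 (by omega)).2
      simp at this
  have h := le_N hn hF (ones (n j))
  rw [E_node n _ j 0 (range (n j)) (fun c => Finsupp.single c 1)] at h
  have h2 : ∑ c ∈ range (n j), E (fun i => |ones (n j) i|) (Finsupp.single c 1) = (n j : ℝ) := by
    rw [Finset.sum_congr rfl (g := fun _ => (1 : ℝ))]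
    · simp
    · intro c hc
      rw [E_single, notLp_ones_apply, if_pos hc]; simp
  rw [h2, gam_zero] at h
  have hpos : (0 : ℝ) < n j := by exact_mod_cast hn.pos hj
  rwa [div_mul_cancel₀ _ hpos.ne'] at h

/-- the indicator function of a set, as a vector -/
noncomputable def notLpInd (S : Finset ℕ) : ℕ → ℝ := fun i => if i ∈ S then 1 else 0

lemma notLp_E_ind_le {S : Finset ℕ} {g : ℕ →₀ ℝ} (h1 : ∀ i, g i ≤ 1) :
    E (notLpInd S) g ≤ S.card := by
  rw [E_eq_sum_of_subset (notLpInd S) g (Finset.subset_union_left (s₂ := S))]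
  have : ∑ i ∈ g.support ∪ S, g i * notLpInd S i = ∑ i ∈ S, g i := by
    rw [← Finset.sum_subset (Finset.subset_union_right (s₁ := g.support) (s₂ := S))]
    · exact Finset.sum_congr rfl fun i hi => by simp [notLpInd, hi]
    · intro i _ hi
      simp [notLpInd, hi]
  rw [this]
  calc ∑ i ∈ S, g i ≤ ∑ i ∈ S, (1 : ℝ) := Finset.sum_le_sum fun i _ => h1 i
    _ = S.card := by simp

lemma notLp_prod_one_le {m j : ℕ} (hm : 1 ≤ m) : (1 : ℝ) ≤ ∏ l ∈ Icc m j, (l : ℝ) := by
  have h : ∀ l ∈ Icc m j, (1 : ℝ) ≤ (l : ℝ) := by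
    intro l hl
    rw [Finset.mem_Icc] at hl
    exact_mod_cast hm.trans hl.1
  calc (1 : ℝ) = ∏ l ∈ Icc m j, (1 : ℝ) := by simp
    _ ≤ _ := Finset.prod_le_prod (fun _ _ => zero_le_one) h

lemma notLp_main (hn : Params n) (S : Finset ℕ) (j : ℕ) (hS : S.card ≤ n j)
    {f : ℕ →₀ ℝ} {A : Finset ℕ} (h : F n f A) :
    ∀ m, 1 ≤ m → (∀ x ∈ A, m ≤ x) → E (notLpInd S) f ≤ ∏ l ∈ Icc m j, (l : ℝ) := by
  induction h with
  | zero =>
    intro m hm _
    rw [map_zero]
    exact zero_le_one.trans (notLp_prod_one_le hm)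
  | leaf k =>
    intro m hm _
    rw [E_single]
    refine le_trans ?_ (notLp_prod_one_le hm)
    unfold notLpInd
    split_ifs <;> norm_num
  | node i r C f A hi hC hF hs hA hr ih =>
    intro m hm hx
    have hmi : m ≤ i := hx i (Finset.mem_insert_self _ _)
    have hni : (0 : ℝ) < n i := by exact_mod_cast hn.pos hi
    rw [E_node]
    by_cases hij : j < i
    · refine le_trans ?_ (notLp_prod_one_le hm)
      have h1 : ∑ c ∈ C, E (notLpInd S) (f c) ≤ (n j : ℝ) := by
        rw [← map_sum]
        refine (notLp_E_ind_le ?_).trans (by exact_mod_cast hS)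
        · intro k
          by_cases hex : ∃ c ∈ C, k ∈ (f c).support
          · obtain ⟨c, hc, hk⟩ := hex
            rw [sum_apply_eq hs hc hk]
            exact (hF c hc).le_one hn k
          · push Not at hex
            rw [sum_apply_eq_zero hex]; exact zero_le_one
      have h2 : (i : ℝ) * n j ≤ n i := by exact_mod_cast hn.mul i j hij
      calc gam i r / n i * ∑ c ∈ C, E (notLpInd S) (f c)
          ≤ (i : ℝ) / n i * n j := mul_le_mul (coef_le i r) h1
            (Finset.sum_nonneg fun c hc => (hF c hc).E_nonneg fun k => by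
              unfold notLpInd; split_ifs <;> norm_num) (by positivity)
        _ = (i * n j) / n i := by ring
        _ ≤ 1 := (div_le_one hni).mpr h2
    · push Not at hij
      set P : ℝ := ∏ l ∈ Icc (i + 1) j, (l : ℝ) with hP
      have hP1 : 1 ≤ P := notLp_prod_one_le (by omega)
      have h1 : ∑ c ∈ C, E (notLpInd S) (f c) ≤ (n i : ℝ) * P := by
        calc ∑ c ∈ C, E (notLpInd S) (f c) ≤ ∑ c ∈ C, P :=
              Finset.sum_le_sum fun c hc => ih c hc (i + 1) (by omega) fun x hx' => by
                have := hA c hc x hx'; omega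
          _ = (C.card : ℝ) * P := by simp
          _ ≤ (n i : ℝ) * P := by
              apply mul_le_mul_of_nonneg_right _ (zero_le_one.trans hP1)
              exact_mod_cast hC
      have h2 : (i : ℝ) * P = ∏ l ∈ Icc i j, (l : ℝ) := by
        rw [hP, ← Finset.insert_Icc_add_one_left_eq_Icc hij, Finset.prod_insert (by simp)]
      have h3 : ∏ l ∈ Icc i j, (l : ℝ) ≤ ∏ l ∈ Icc m j, (l : ℝ) := by
        apply Finset.prod_le_prod_of_subset_of_one_le (Finset.Icc_subset_Icc_left hmi)
        · intro l _; positivity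
        · intro l hl _
          rw [Finset.mem_Icc] at hl
          exact_mod_cast hm.trans hl.1
      calc gam i r / n i * ∑ c ∈ C, E (notLpInd S) (f c)
          ≤ (i : ℝ) / n i * (n i * P) := mul_le_mul (coef_le i r) h1
            (Finset.sum_nonneg fun c hc => (hF c hc).E_nonneg fun k => by
              unfold notLpInd; split_ifs <;> norm_num) (by positivity)
        _ = i * P := by field_simp
        _ = ∏ l ∈ Icc i j, (l : ℝ) := h2
        _ ≤ _ := h3

lemma notLp_prod_Icc (j : ℕ) : ∏ l ∈ Icc 1 j, l = j.factorial := by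
  induction j with
  | zero => simp
  | succ j ih => rw [Finset.prod_Icc_succ_top (by omega), ih, Nat.factorial_succ, mul_comm]

theorem N_ones_le (hn : Params n) {j : ℕ} (hj : 1 ≤ j) : N n (ones (n j)) ≤ (j.factorial : ℝ) := by
  apply N_le
  intro f A hf
  have h := notLp_main hn (range (n j)) j (by simp) hf 1 le_rfl hf.one_le
  have h1 : (fun i => |ones (n j) i|) = notLpInd (range (n j)) := by
    funext i
    rw [notLp_ones_apply]
    unfold notLpInd
    split_ifs <;> simp
  rw [h1]
  refine h.trans (le_of_eq ?_)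
  rw [← Nat.cast_prod, notLp_prod_Icc]

end Pool.Agent.Ros
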