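import Pool.Agent.Helper80.Ros.Basic

/-!
# Existence of the parameters
-/

namespace Pool.Agent.Ros

/-- an explicit fast growing sequence -/
def paramsSeq : ℕ → ℕ
  | 0 => 1
  | j + 1 => 16 * (j + 1) ^ 2 * ((j + 1).factorial * (j + 1)) ^ (j + 1) * 2 ^ (j + 1) *
      (paramsSeq j) ^ 2

lemma paramsSeq_pos (j : ℕ) : 1 ≤ paramsSeq j := by
  induction j with
  | zero => simp [paramsSeq]
  | succ j ih =>
    rw [paramsSeq]
    have : 0 < 16 * (j + 1) ^ 2 * ((j + 1).factorial * (j + 1)) ^ (j + 1) * 2 ^ (j + 1) *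
      (paramsSeq j) ^ 2 := by
      have := Nat.factorial_pos (j + 1)
      positivity
    omega

/-- Sequences with the required growth exist. -/
theorem exists_params : ∃ n : ℕ → ℕ, Params n := by
  have key : ∀ j : ℕ, ∃ u v s : ℕ, 1 ≤ u ∧ 1 ≤ v ∧ 1 ≤ s ∧
      u = ((j + 1).factorial * (j + 1)) ^ (j + 1) ∧ v = 2 ^ (j + 1) ∧ s = (paramsSeq j) ^ 2 ∧
      paramsSeq (j + 1) = 16 * (j + 1) ^ 2 * u * v * s := by
    intro j
    refine ⟨_, _, _, ?_, ?_, ?_, rfl, rfl, rfl, ?_⟩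
    · exact Nat.one_le_iff_ne_zero.mpr (by have := Nat.factorial_pos (j + 1); positivity)
    · exact Nat.one_le_two_pow
    · exact Nat.one_le_iff_ne_zero.mpr (by have := paramsSeq_pos j; positivity)
    · rw [paramsSeq]
  have hsq : ∀ j : ℕ, 1 ≤ j → 16 * j ^ 2 ≤ paramsSeq j := by
    intro j hj
    obtain ⟨i, rfl⟩ : ∃ i, j = i + 1 := ⟨j - 1, by omega⟩
    obtain ⟨u, v, s, hu, hv, hs, -, -, -, h⟩ := key i
    rw [h]
    have h1 : 1 ≤ u * v * s := Nat.mul_pos (Nat.mul_pos hu hv) hs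
    calc 16 * (i + 1) ^ 2 = 16 * (i + 1) ^ 2 * 1 := by ring
      _ ≤ 16 * (i + 1) ^ 2 * (u * v * s) := Nat.mul_le_mul_left _ h1
      _ = _ := by ring
  have hstep : ∀ j : ℕ, (j + 1) * paramsSeq j ≤ paramsSeq (j + 1) := by
    intro j
    obtain ⟨u, v, s, hu, hv, hs, -, -, hs', h⟩ := key j
    rw [h]
    have h1 : 1 ≤ u * v := Nat.mul_pos hu hv
    have h2 : paramsSeq j ≤ s := by
      rw [hs']; have := paramsSeq_pos j; nlinarith
    calc (j + 1) * paramsSeq j ≤ (16 * (j + 1) ^ 2 * (u * v)) * s := by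
          apply Nat.mul_le_mul _ h2
          have : (j + 1) ≤ (j + 1) ^ 2 := by nlinarith
          nlinarith
      _ = _ := by ring
  have hmono : Monotone paramsSeq := by
    apply monotone_nat_of_le_succ
    intro j
    have := hstep j
    nlinarith [paramsSeq_pos j]
  refine ⟨paramsSeq, ⟨?_, ?_, ?_, ?_, ?_, ?_⟩⟩
  · intro j hj
    have := hsq j hj
    nlinarith
  · intro j hj
    have := hsq j hj
    nlinarith
  · intro j hj
    obtain ⟨u, v, s, hu, hv, hs, -, -, hs', h⟩ := key j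
    rw [h, ← hs']
    have h1 : 1 ≤ u * v := Nat.mul_pos hu hv
    calc 2 * (j + 1) ^ 2 * s ≤ (16 * (j + 1) ^ 2 * (u * v)) * s := by
          apply Nat.mul_le_mul_right
          nlinarith [Nat.zero_le ((j + 1) ^ 2)]
      _ = _ := by ring
  · intro i j hij
    obtain ⟨k, rfl⟩ : ∃ k, i = k + 1 := ⟨i - 1, by omega⟩
    have h1 : paramsSeq j ≤ paramsSeq k := hmono (by omega)
    calc (k + 1) * paramsSeq j ≤ (k + 1) * paramsSeq k := Nat.mul_le_mul_left _ h1
      _ ≤ _ := hstep k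
  · intro i hi
    obtain ⟨k, rfl⟩ : ∃ k, i = k + 1 := ⟨i - 1, by omega⟩
    obtain ⟨u, v, s, hu, hv, hs, -, hv', -, h⟩ := key k
    rw [h, ← hv']
    have h1 : 1 ≤ u * s := Nat.mul_pos hu hs
    calc (k + 1) * v ≤ (16 * (k + 1) ^ 2 * (u * s)) * v := by
          apply Nat.mul_le_mul_right
          have : (k + 1) ≤ (k + 1) ^ 2 := by nlinarith
          nlinarith
      _ = _ := by ring
  · intro j hj
    obtain ⟨k, rfl⟩ : ∃ k, j = k + 1 := ⟨j - 1, by omega⟩
    obtain ⟨u, v, s, hu, hv, hs, hu', -, -, h⟩ := key k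
    rw [h, ← hu']
    have h1 : 1 ≤ v * s := Nat.mul_pos hv hs
    have h2 : 1 ≤ 16 * (k + 1) ^ 2 * (v * s) := Nat.mul_pos (by positivity) h1
    calc u = 1 * u := by ring
      _ ≤ (16 * (k + 1) ^ 2 * (v * s)) * u := Nat.mul_le_mul_right _ h2
      _ = _ := by ring

end Pool.Agent.Ros
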