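import Pool.Agent.Helper80.Ros.Basic

/-!
# Restrictions and relabelings of norming functionals
-/

namespace Pool.Agent.Ros

open Finset

variable {n : ℕ → ℕ}

lemma HasChain.mono_right {C : Finset ℕ} {A A' : ℕ → Finset ℕ} {m : ℕ}
    (h : ∀ c ∈ C, A' c ⊆ A c) (hm : HasChain C A' m) : HasChain C A m := by
  obtain ⟨c, x, h1, h2⟩ := hm
  exact ⟨c, x, fun i hi => ⟨(h1 i hi).1, h _ (h1 i hi).1 (h1 i hi).2⟩, h2⟩

theorem F.restrict {f : ℕ →₀ ℝ} {A : Finset ℕ} (hf : F n f A) (P : ℕ → Prop) [DecidablePred P] :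
    ∃ A' ⊆ A, F n (f.filter P) A' := by
  induction hf with
  | zero =>
    refine ⟨∅, Finset.Subset.refl _, ?_⟩
    rw [Finsupp.filter_zero]; exact F.zero
  | leaf k =>
    refine ⟨∅, Finset.Subset.refl _, ?_⟩
    by_cases hk : P k
    · rw [Finsupp.filter_single_of_pos _ hk]; exact F.leaf k
    · rw [Finsupp.filter_single_of_neg _ hk]; exact F.zero
  | node j r C f A hj hC hF hs hA hr ih =>
    choose! A' hA' hF' using ih
    refine ⟨insert j (C.biUnion A'), ?_, ?_⟩
    · apply Finset.insert_subset_insert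
      intro x hx
      rw [Finset.mem_biUnion] at hx ⊢
      obtain ⟨c, hc, hx⟩ := hx
      exact ⟨c, hc, hA' c hc hx⟩
    · have he : ((gam j r / n j) • ∑ c ∈ C, f c).filter P =
          (gam j r / n j) • ∑ c ∈ C, (f c).filter P := by
        ext i
        by_cases hi : P i
        · simp [Finsupp.filter_apply, hi, Finsupp.finsetSum_apply]
        · simp [Finsupp.filter_apply, hi, Finsupp.finsetSum_apply]
      rw [he]
      refine F.node j r C (fun c => (f c).filter P) A' hj hC hF' ?_ ?_ ?_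
      · intro c hc c' hc' hcc i hi i' hi'
        rw [Finsupp.support_filter, Finset.mem_filter] at hi hi'
        exact hs c hc c' hc' hcc i hi.1 i' hi'.1
      · intro c hc x hx
        exact hA c hc x (hA' c hc hx)
      · intro m hm
        exact hr m (hm.mono_right hA')

theorem F.relabel {f : ℕ →₀ ℝ} {A : Finset ℕ} (hf : F n f A) {σ : ℕ → ℕ} (hσ : StrictMono σ) :
    F n (f.mapDomain σ) A := by
  induction hf with
  | zero => rw [Finsupp.mapDomain_zero]; exact F.zero
  | leaf k => rw [Finsupp.mapDomain_single]; exact F.leaf _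
  | node j r C f A hj hC hF hs hA hr ih =>
    rw [Finsupp.mapDomain_smul, Finsupp.mapDomain_finset_sum]
    refine F.node j r C (fun c => (f c).mapDomain σ) A hj hC ih ?_ hA hr
    intro c hc c' hc' hcc i hi i' hi'
    have h1 := Finsupp.mapDomain_support hi
    have h2 := Finsupp.mapDomain_support hi'
    rw [Finset.mem_image] at h1 h2
    obtain ⟨k, hk, rfl⟩ := h1
    obtain ⟨k', hk', rfl⟩ := h2
    exact hσ (hs c hc c' hc' hcc k hk k' hk')

lemma E_mapDomain (w : ℕ → ℝ) (σ : ℕ → ℕ) (f : ℕ →₀ ℝ) :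
    E w (f.mapDomain σ) = E (w ∘ σ) f := by
  simp [E, Finsupp.linearCombination_mapDomain]

/-- an element of `F` with empty index set is zero or a unit vector -/
lemma F.of_empty {f : ℕ →₀ ℝ} {A : Finset ℕ} (hf : F n f A) (hA : A = ∅) :
    f = 0 ∨ ∃ k, f = Finsupp.single k 1 := by
  cases hf with
  | zero => left; rfl
  | leaf k => right; exact ⟨k, rfl⟩
  | node j r C f A hj hC hF hs hA' hr =>
    exact absurd hA (Finset.insert_ne_empty _ _)

end Pool.Agent.Ros
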