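import Pool.Agent.Helper80.Ros.Basic

/-!
# Combinatorial lemmas for the upper estimate
-/

namespace Pool.Agent.Ros

open Finset

/-- top `p` elements of a finite set -/
lemma exists_top (S : Finset ℕ) (v : ℕ → ℝ) (p : ℕ) (hp : p ≤ S.card) :
    ∃ T ⊆ S, T.card = p ∧ ∀ x ∈ T, ∀ y ∈ S \ T, v y ≤ v x := by
  induction p with
  | zero => exact ⟨∅, by simp, by simp, by simp⟩
  | succ p ih =>
    obtain ⟨T, hTS, hTc, hT⟩ := ih (by omega)
    have hne : (S \ T).Nonempty := by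
      rw [← Finset.card_pos, Finset.card_sdiff_of_subset hTS]; omega
    obtain ⟨x0, hx0, hmax⟩ := Finset.exists_max_image (S \ T) v hne
    rw [Finset.mem_sdiff] at hx0
    refine ⟨insert x0 T, ?_, ?_, ?_⟩
    · intro x hx
      rcases Finset.mem_insert.mp hx with rfl | hx
      · exact hx0.1
      · exact hTS hx
    · rw [Finset.card_insert_of_notMem hx0.2, hTc]
    · intro x hx y hy
      rw [Finset.mem_sdiff, Finset.mem_insert, not_or] at hy
      have hy' : y ∈ S \ T := Finset.mem_sdiff.mpr ⟨hy.1, hy.2.2⟩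
      rcases Finset.mem_insert.mp hx with rfl | hx
      · exact hmax y hy'
      · exact hT x hx y hy'

/-- if `T` consists of the top elements then the average over `T` is at least the average over `S` -/
lemma top_avg {S T : Finset ℕ} {v : ℕ → ℝ} (hTS : T ⊆ S)
    (hT : ∀ x ∈ T, ∀ y ∈ S \ T, v y ≤ v x) :
    (T.card : ℝ) * ∑ c ∈ S, v c ≤ (S.card : ℝ) * ∑ c ∈ T, v c := by
  have h1 : ∑ c ∈ S, v c = ∑ c ∈ S \ T, v c + ∑ c ∈ T, v c := (Finset.sum_sdiff hTS).symm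
  have h2 : (T.card : ℝ) * ∑ c ∈ S \ T, v c ≤ ((S \ T).card : ℝ) * ∑ c ∈ T, v c := by
    have e1 : (T.card : ℝ) * ∑ c ∈ S \ T, v c = ∑ x ∈ T, ∑ y ∈ S \ T, v y := by
      rw [Finset.sum_const, nsmul_eq_mul]
    have e2 : ((S \ T).card : ℝ) * ∑ c ∈ T, v c = ∑ x ∈ T, ∑ y ∈ S \ T, v x := by
      simp only [Finset.sum_const, nsmul_eq_mul, Finset.mul_sum]
    rw [e1, e2]
    exact Finset.sum_le_sum fun x hx => Finset.sum_le_sum fun y hy => hT x hx y hy
  have h3 : ((S \ T).card : ℝ) = S.card - T.card := by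
    rw [Finset.card_sdiff_of_subset hTS, Nat.cast_sub (Finset.card_le_card hTS)]
  rw [h1, mul_add]
  rw [h3] at h2
  linarith

/-- a `p`-element subset of a `p * p`-element set with gaps at least `p` -/
lemma exists_sparse (T : Finset ℕ) (p : ℕ) (hT : T.card = p * p) :
    ∃ S ⊆ T, S.card = p ∧ ∀ c ∈ S, ∀ c' ∈ S, c < c' →
      p ≤ (T.filter fun t => c ≤ t ∧ t ≤ c').card := by
  classical
  let e := T.orderEmbOfFin hT
  have hlt : ∀ i : Fin p, (i : ℕ) * p < p * p := fun i =>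
    Nat.mul_lt_mul_of_pos_right i.2 (lt_of_le_of_lt (Nat.zero_le _) i.2)
  let g : Fin p → ℕ := fun i => e ⟨i * p, hlt i⟩
  have hg : StrictMono g := by
    intro i i' hii
    apply e.strictMono
    show (i : ℕ) * p < (i' : ℕ) * p
    exact Nat.mul_lt_mul_of_pos_right hii (lt_of_le_of_lt (Nat.zero_le _) i.2)
  refine ⟨Finset.univ.image g, ?_, ?_, ?_⟩
  · intro x hx
    obtain ⟨i, _, rfl⟩ := Finset.mem_image.mp hx
    exact Finset.orderEmbOfFin_mem T hT _
  · rw [Finset.card_image_of_injective _ hg.injective]; simp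
  · intro c hc c' hc' hcc
    obtain ⟨i, _, rfl⟩ := Finset.mem_image.mp hc
    obtain ⟨i', _, rfl⟩ := Finset.mem_image.mp hc'
    have hii : i < i' := hg.lt_iff_lt.mp hcc
    have hp0 : 0 < p := lt_of_le_of_lt (Nat.zero_le _) i.2
    have hle : (i : ℕ) * p + p ≤ (i' : ℕ) * p := by
      have : ((i : ℕ) + 1) * p ≤ (i' : ℕ) * p := Nat.mul_le_mul_right p hii
      linarith
    -- the elements e (i p + t), t < p
    have hb : ∀ t : Fin p, (i : ℕ) * p + t < p * p := fun t => by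
      have h1 := hlt i'
      have h2 := t.2
      omega
    let u : Fin p → ℕ := fun t => e ⟨(i : ℕ) * p + t, hb t⟩
    have hu : StrictMono u := by
      intro t t' htt
      apply e.strictMono
      show (i : ℕ) * p + t < (i : ℕ) * p + t'
      have : (t : ℕ) < t' := htt
      omega
    have hsub : Finset.univ.image u ⊆ T.filter fun t => g i ≤ t ∧ t ≤ g i' := by
      intro x hx
      obtain ⟨t, _, rfl⟩ := Finset.mem_image.mp hx
      rw [Finset.mem_filter]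
      refine ⟨Finset.orderEmbOfFin_mem T hT _, ?_, ?_⟩
      · apply e.monotone
        show (i : ℕ) * p ≤ (i : ℕ) * p + t
        omega
      · apply e.monotone
        show (i : ℕ) * p + t ≤ (i' : ℕ) * p
        have := t.2
        omega
    calc p = (Finset.univ.image u).card := by
            rw [Finset.card_image_of_injective _ hu.injective]; simp
      _ ≤ _ := Finset.card_le_card hsub

/-! ### Blocks and children -/

/-- the vector `w k` meets the child `f c` -/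
def Meets (w : ℕ → ℕ → ℝ) (f : ℕ → ℕ →₀ ℝ) (k c : ℕ) : Prop :=
  ∃ i ∈ (f c).support, w k i ≠ 0

open Classical in
/-- the children between the first and the last one met by `w k` -/
noncomputable def hull (w : ℕ → ℕ → ℝ) (f : ℕ → ℕ →₀ ℝ) (C : Finset ℕ) (k : ℕ) : Finset ℕ :=
  C.filter fun c => (∃ c1 ∈ C, c1 ≤ c ∧ Meets w f k c1) ∧ (∃ c2 ∈ C, c ≤ c2 ∧ Meets w f k c2)

open Classical in
/-- the children strictly between the first and the last one met by `w k` -/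
noncomputable def inner (w : ℕ → ℕ → ℝ) (f : ℕ → ℕ →₀ ℝ) (C : Finset ℕ) (k : ℕ) : Finset ℕ :=
  C.filter fun c => (∃ c1 ∈ C, c1 < c ∧ Meets w f k c1) ∧ (∃ c2 ∈ C, c < c2 ∧ Meets w f k c2)

section
variable {w : ℕ → ℕ → ℝ} {f : ℕ → ℕ →₀ ℝ} {C : Finset ℕ}

lemma mem_hull {k c : ℕ} : c ∈ hull w f C k ↔ c ∈ C ∧ (∃ c1 ∈ C, c1 ≤ c ∧ Meets w f k c1) ∧
    (∃ c2 ∈ C, c ≤ c2 ∧ Meets w f k c2) := by
  classical
  simp [hull]

lemma mem_inner {k c : ℕ} : c ∈ inner w f C k ↔ c ∈ C ∧ (∃ c1 ∈ C, c1 < c ∧ Meets w f k c1) ∧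
    (∃ c2 ∈ C, c < c2 ∧ Meets w f k c2) := by
  classical
  simp [inner]

lemma hull_subset (k : ℕ) : hull w f C k ⊆ C := fun _ hc => (mem_hull.mp hc).1

lemma inner_subset (k : ℕ) : inner w f C k ⊆ C := fun _ hc => (mem_inner.mp hc).1

lemma mem_hull_of_meets {k c : ℕ} (hc : c ∈ C) (h : Meets w f k c) : c ∈ hull w f C k :=
  mem_hull.mpr ⟨hc, ⟨c, hc, le_refl _, h⟩, ⟨c, hc, le_refl _, h⟩⟩

lemma hull_card_le (k : ℕ) : (hull w f C k).card ≤ (inner w f C k).card + 2 := by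
  classical
  by_cases hne : (C.filter fun c => Meets w f k c).Nonempty
  · set M := C.filter fun c => Meets w f k c with hM
    have hsub : hull w f C k ⊆ insert (M.min' hne) (insert (M.max' hne) (inner w f C k)) := by
      intro c hc
      rw [mem_hull] at hc
      obtain ⟨hcC, ⟨c1, hc1, h1, hm1⟩, ⟨c2, hc2, h2, hm2⟩⟩ := hc
      have hc1M : c1 ∈ M := Finset.mem_filter.mpr ⟨hc1, hm1⟩
      have hc2M : c2 ∈ M := Finset.mem_filter.mpr ⟨hc2, hm2⟩
      have hmin := M.min'_le c1 hc1M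
      have hmax := M.le_max' c2 hc2M
      rw [Finset.mem_insert, Finset.mem_insert]
      by_cases e1 : c = M.min' hne
      · left; exact e1
      · by_cases e2 : c = M.max' hne
        · right; left; exact e2
        · right; right
          rw [mem_inner]
          have m1 := Finset.mem_filter.mp (M.min'_mem hne)
          have m2 := Finset.mem_filter.mp (M.max'_mem hne)
          refine ⟨hcC, ⟨_, m1.1, ?_, m1.2⟩, ⟨_, m2.1, ?_, m2.2⟩⟩
          · exact lt_of_le_of_ne (hmin.trans h1) (fun h => e1 h.symm)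
          · exact lt_of_le_of_ne (h2.trans hmax) e2
    calc (hull w f C k).card ≤ (insert (M.min' hne) (insert (M.max' hne) (inner w f C k))).card :=
          Finset.card_le_card hsub
      _ ≤ (insert (M.max' hne) (inner w f C k)).card + 1 := Finset.card_insert_le _ _
      _ ≤ ((inner w f C k).card + 1) + 1 := Nat.add_le_add_right (Finset.card_insert_le _ _) 1
      _ = _ := by ring
  · have : hull w f C k = ∅ := by
      rw [Finset.eq_empty_iff_forall_notMem]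
      intro c hc
      rw [mem_hull] at hc
      obtain ⟨_, ⟨c1, hc1, _, hm1⟩, _⟩ := hc
      exact hne ⟨c1, Finset.mem_filter.mpr ⟨hc1, hm1⟩⟩
    rw [this]; simp

variable (hws : ∀ k k', k < k' → ∀ i i', w k i ≠ 0 → w k' i' ≠ 0 → i < i')
  (hs : ∀ c ∈ C, ∀ c' ∈ C, c < c' → ∀ i ∈ (f c).support, ∀ i' ∈ (f c').support, i < i')

include hws hs

lemma meets_mono {k k' c c' : ℕ} (hc : c ∈ C) (hc' : c' ∈ C) (hcc : c < c')
    (h : Meets w f k c) (h' : Meets w f k' c') : k ≤ k' := by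
  obtain ⟨i, hi, hwi⟩ := h
  obtain ⟨i', hi', hwi'⟩ := h'
  by_contra hlt
  push Not at hlt
  exact absurd (hws k' k hlt i' i hwi' hwi) (not_lt.mpr (hs c hc c' hc' hcc i hi i' hi').le)

lemma inner_meets {k k' c : ℕ} (hc : c ∈ inner w f C k) (h : Meets w f k' c) : k' = k := by
  rw [mem_inner] at hc
  obtain ⟨hcC, ⟨c1, hc1, h1, hm1⟩, ⟨c2, hc2, h2, hm2⟩⟩ := hc
  exact le_antisymm (meets_mono hws hs hcC hc2 h2 h hm2) (meets_mono hws hs hc1 hcC h1 hm1 h)

lemma inner_disjoint {k k' : ℕ} (hk : k ≠ k') : Disjoint (inner w f C k) (inner w f C k') := by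
  rw [Finset.disjoint_left]
  intro c hc hc'
  rw [mem_inner] at hc hc'
  obtain ⟨hcC, ⟨c1, hc1, h1, hm1⟩, ⟨c2, hc2, h2, hm2⟩⟩ := hc
  obtain ⟨_, ⟨d1, hd1, g1, hn1⟩, ⟨d2, hd2, g2, hn2⟩⟩ := hc'
  exact hk (le_antisymm (meets_mono hws hs hc1 hd2 (h1.trans g2) hm1 hn2)
    (meets_mono hws hs hd1 hc2 (g1.trans h2) hn1 hm2))

end

lemma E_eq_zero_of_not_meets {w : ℕ → ℕ → ℝ} {f : ℕ → ℕ →₀ ℝ} {k c : ℕ} (h : ¬ Meets w f k c) :
    E (w k) (f c) = 0 := by
  apply E_eq_zero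
  intro i hi
  by_contra h0
  exact h ⟨i, hi, h0⟩

/-! ### Numerical lemma -/

lemma numeric {j : ℕ} (hj : 2 ≤ j) {n : ℕ → ℕ} (hn : Params n) {m : ℕ} (hm : 1 ≤ m) (hmj : m ≤ j) :
    Real.exp (12 / ((2 * j : ℕ) : ℝ)) * ((j : ℝ) / ((j : ℝ) - 1)) ^ 2 *
      (1 + 2 / ((n (j - 1) : ℝ) - 2) + j * (n (j - 1) : ℝ) ^ 2 / n j) ≤ Real.exp (12 / m) := by
  obtain ⟨i, rfl⟩ : ∃ i, j = i + 2 := ⟨j - 2, by omega⟩
  have hi1 : i + 2 - 1 = i + 1 := by omega
  rw [hi1]
  have h1 := hn.lin (i + 1) (by omega)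
  have h2 := hn.grow (i + 1) (by omega)
  rw [show i + 1 + 1 = i + 2 by omega] at h2
  have hi : (0 : ℝ) ≤ i := Nat.cast_nonneg i
  have h1' : 4 * ((i : ℝ) + 1) + 2 ≤ n (i + 1) := by exact_mod_cast h1
  have h2' : 2 * ((i : ℝ) + 2) ^ 2 * (n (i + 1) : ℝ) ^ 2 ≤ n (i + 2) := by exact_mod_cast h2
  have hp : (0 : ℝ) < n (i + 1) := by linarith
  have hnj : (0 : ℝ) < n (i + 2) := lt_of_lt_of_le (by positivity) h2'
  push_cast
  have e1 : ((i : ℝ) + 2) / ((i : ℝ) + 2 - 1) ≤ Real.exp (2 / ((i : ℝ) + 2)) := by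
    have h3 : ((i : ℝ) + 2) / ((i : ℝ) + 2 - 1) = 1 / ((i : ℝ) + 1) + 1 := by
      rw [show (i : ℝ) + 2 - 1 = i + 1 by ring]; field_simp; ring
    rw [h3]
    refine (Real.add_one_le_exp _).trans (Real.exp_le_exp.mpr ?_)
    rw [div_le_div_iff₀ (by positivity) (by positivity)]
    linarith
  have e2 : (1 + 2 / ((n (i + 1) : ℝ) - 2) + ((i : ℝ) + 2) * (n (i + 1) : ℝ) ^ 2 / n (i + 2)) ≤
      Real.exp (2 / ((i : ℝ) + 2)) := by
    have h3 : 2 / ((n (i + 1) : ℝ) - 2) ≤ 1 / ((i : ℝ) + 2) := by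
      rw [div_le_div_iff₀ (by linarith) (by positivity)]
      linarith
    have h4 : ((i : ℝ) + 2) * (n (i + 1) : ℝ) ^ 2 / n (i + 2) ≤ 1 / ((i : ℝ) + 2) := by
      rw [div_le_div_iff₀ hnj (by positivity)]
      nlinarith [sq_nonneg (((i : ℝ) + 2) * (n (i + 1) : ℝ))]
    have h5 : (2 : ℝ) / ((i : ℝ) + 2) = 1 / ((i : ℝ) + 2) + 1 / ((i : ℝ) + 2) := by ring
    have h6 := Real.add_one_le_exp (2 / ((i : ℝ) + 2))
    linarith
  have e0 : (0 : ℝ) ≤ ((i : ℝ) + 2) / ((i : ℝ) + 2 - 1) := by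
    rw [show (i : ℝ) + 2 - 1 = i + 1 by ring]; positivity
  have e3 : (((i : ℝ) + 2) / ((i : ℝ) + 2 - 1)) ^ 2 ≤ Real.exp (4 / ((i : ℝ) + 2)) := by
    calc (((i : ℝ) + 2) / ((i : ℝ) + 2 - 1)) ^ 2 ≤ (Real.exp (2 / ((i : ℝ) + 2))) ^ 2 :=
          pow_le_pow_left₀ e0 e1 2
      _ = Real.exp (4 / ((i : ℝ) + 2)) := by
          rw [← Real.exp_nat_mul]; congr 1; push_cast; ring
  have e4 : (0 : ℝ) ≤ (1 + 2 / ((n (i + 1) : ℝ) - 2) +
      ((i : ℝ) + 2) * (n (i + 1) : ℝ) ^ 2 / n (i + 2)) := by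
    have : (0 : ℝ) ≤ 2 / ((n (i + 1) : ℝ) - 2) := div_nonneg (by norm_num) (by linarith)
    positivity
  calc Real.exp (12 / (2 * ((i : ℝ) + 2))) * (((i : ℝ) + 2) / ((i : ℝ) + 2 - 1)) ^ 2 *
        (1 + 2 / ((n (i + 1) : ℝ) - 2) + ((i : ℝ) + 2) * (n (i + 1) : ℝ) ^ 2 / n (i + 2))
      ≤ Real.exp (12 / (2 * ((i : ℝ) + 2))) * Real.exp (4 / ((i : ℝ) + 2)) *
        Real.exp (2 / ((i : ℝ) + 2)) := by
        gcongr
    _ = Real.exp (12 / ((i : ℝ) + 2)) := by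
        rw [← Real.exp_add, ← Real.exp_add]; congr 1; field_simp; ring
    _ ≤ Real.exp (12 / m) := by
        apply Real.exp_le_exp.mpr
        have hm' : (0 : ℝ) < m := by exact_mod_cast hm
        have hmj' : (m : ℝ) ≤ (i : ℝ) + 2 := by exact_mod_cast hmj
        apply div_le_div_of_nonneg_left (by norm_num) hm' hmj'

end Pool.Agent.Ros
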